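import Pool.Agent.MP_41ff67_pr.Scale

set_option autoImplicit false

open MeasureTheory ProbabilityTheory Filter Metric
open scoped ENNReal NNReal Topology Pointwise RealInnerProductSpace

namespace Pool.Agent.MP_41ff67_pr

variable {d : ℕ} {μ : Seminorm ℝ (E d)} {f : E d → ℝ}

/-- The coordinate weights of the gauge: weight `1` for the coordinate `i₀`, weight `2` for the
others. -/
noncomputable def cw (i₀ i : Fin d) : ℝ := if i = i₀ then 1 else 2

/-- The gauge `|z_{i₀}| + 2 ∑_{i ≠ i₀} |z_i|`. -/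
noncomputable def gauge' (i₀ : Fin d) (z : E d) : ℝ := ∑ i, cw i₀ i * |z i|

lemma cw_ge_one (i₀ i : Fin d) : 1 ≤ cw i₀ i := by
  unfold cw; split_ifs <;> norm_num

lemma cw_pos (i₀ i : Fin d) : 0 < cw i₀ i := lt_of_lt_of_le one_pos (cw_ge_one i₀ i)

lemma cw_le_two (i₀ i : Fin d) : cw i₀ i ≤ 2 := by
  unfold cw; split_ifs <;> norm_num

lemma gauge_smul (i₀ : Fin d) (c : ℝ) (z : E d) (hc : 0 < c) :
    gauge' i₀ (c • z) = c * gauge' i₀ z := by
  unfold gauge'
  rw [Finset.mul_sum]
  refine Finset.sum_congr rfl fun i _ => ?_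
  rw [PiLp.smul_apply, smul_eq_mul, abs_mul, abs_of_pos hc]
  ring

lemma abs_le_gauge (i₀ : Fin d) (z : E d) (i : Fin d) : |z i| ≤ gauge' i₀ z := by
  unfold gauge'
  calc |z i| ≤ cw i₀ i * |z i| := le_mul_of_one_le_left (abs_nonneg _) (cw_ge_one i₀ i)
    _ ≤ _ := Finset.single_le_sum (f := fun i => cw i₀ i * |z i|)
        (fun j _ => mul_nonneg (cw_pos i₀ j).le (abs_nonneg _)) (Finset.mem_univ i)

lemma gauge_nonneg (i₀ : Fin d) (z : E d) : 0 ≤ gauge' i₀ z :=
  Finset.sum_nonneg fun i _ => mul_nonneg (cw_pos i₀ i).le (abs_nonneg _)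

lemma rpow_lower {β x : ℝ} (hβ : 0 < β) (hx : x < 1) : 1 - β * x / (1 - x) ≤ (1 - x) ^ β := by
  have h1 : 0 < 1 - x := by linarith
  rw [Real.rpow_def_of_pos h1]
  have h2 := Real.add_one_le_exp (Real.log (1 - x) * β)
  have h3 := Real.one_sub_inv_le_log_of_pos h1
  have h4 : 1 - (1 - x)⁻¹ = - (x / (1 - x)) := by field_simp; ring
  rw [h4] at h3
  have h5 : - (x / (1 - x)) * β ≤ Real.log (1 - x) * β := by gcongr
  have h6 : - (x / (1 - x)) * β = - (β * x / (1 - x)) := by ring
  linarith

/-- The corner obstruction. -/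
lemma corner {α : ℝ} (hα : α < 1) (hf : IsWeight α f) (i₀ i₁ : Fin d) (hne : i₁ ≠ i₀)
    (M c₀ : ℝ) (hM : 0 < M) (hc₀ : 0 < c₀)
    (hq : μ (EuclideanSpace.single i₁ (1 : ℝ)) = M)
    (hproj : ∀ v : E d, |v i₀| * M ≤ μ v) (hlow : ∀ v : E d, c₀ * ‖v‖ ≤ μ v)
    (hK : ∀ z, weightedDist μ f 0 z ≤ 1 ↔ gauge' i₀ z ≤ 1) : False := by
  set p : E d := EuclideanSpace.single i₀ (1 : ℝ) with hp
  set q : E d := EuclideanSpace.single i₁ (1 : ℝ) with hqdef
  set β : ℝ := 1 - α with hβdef
  have hβ : 0 < β := by rw [hβdef]; linarith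
  have hpnorm : ‖p‖ = 1 := by rw [hp]; simp
  have hqnorm : ‖q‖ = 1 := by rw [hqdef]; simp
  have hp0 : p ≠ 0 := by
    intro h; rw [h, norm_zero] at hpnorm; exact absurd hpnorm (by norm_num)
  have hfp : 0 < f p := weight_pos hf p hp0
  set F : ℝ := 1 / f p with hF
  have hFpos : 0 < F := by positivity
  have hcont : ContinuousAt (fun y => 1 / f y) p :=
    (continuousAt_const.div (weight_continuousAt hf p hp0) hfp.ne')
  have hDp : weightedDist μ f 0 p ≤ 1 := by
    rw [hK]
    unfold gauge'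
    rw [Finset.sum_eq_single i₀]
    · simp [hp, cw]
    · intro j _ hj; simp [hp, hj]
    · intro h; exact absurd (Finset.mem_univ _) h
  have hlowD : ∀ w : E d, ENNReal.ofReal (gauge' i₀ w ^ β) ≤ weightedDist μ f 0 w := fun w =>
    weightedDist_lower hα hf (gauge' i₀) (fun c z hc => gauge_smul i₀ c z hc)
      (fun z hz => (hK z).1 hz) w (gauge_nonneg i₀ w)
  -- Step B
  have stepB : 2 * β ≤ F * M := by
    by_contra hcon
    push Not at hcon
    set F' : ℝ := F + (2 * β - F * M) / (2 * M) with hF'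
    have hFF' : F < F' := by
      rw [hF']
      have : 0 < (2 * β - F * M) / (2 * M) := div_pos (by linarith) (by linarith)
      linarith
    have hF'M : F' * M < 2 * β := by
      have : F' * M = F * M + (2 * β - F * M) / 2 := by
        rw [hF']; field_simp
      rw [this]; linarith
    have hF'pos : 0 < F' := hFpos.trans hFF'
    obtain ⟨r, hr, hball⟩ := Metric.eventually_nhds_iff.1 (hcont.eventually (gt_mem_nhds hFF'))
    -- choose h
    obtain ⟨h, hh0, hhr, hh1⟩ : ∃ h : ℝ, 0 < h ∧ h < r ∧ F' * M * (1 + 2 * h) < 2 * β := by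
      have h3 : Tendsto (fun h : ℝ => F' * M * (1 + 2 * h)) (𝓝[>] 0) (𝓝 (F' * M * (1 + 2 * 0))) :=
        (Continuous.tendsto (by fun_prop) 0).mono_left nhdsWithin_le_nhds
      have h4 : F' * M * (1 + 2 * 0) < 2 * β := by linarith
      have h5 := h3.eventually (gt_mem_nhds h4)
      have h6 : ∀ᶠ h : ℝ in 𝓝[>] 0, h ∈ Set.Ioo 0 r := Ioo_mem_nhdsGT hr
      obtain ⟨h, hh⟩ := (h5.and h6).exists
      exact ⟨h, hh.2.1, hh.2.2, hh.1⟩
    set v : E d := M⁻¹ • q with hv
    have hμv : μ v = 1 := by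
      rw [hv, map_smul_eq_mul, hq, norm_inv, Real.norm_eq_abs, abs_of_pos hM,
        inv_mul_cancel₀ hM.ne']
    have hseg := weightedDist_segment (μ := μ) (f := f) p v (h * M) (by positivity) hμv
    have hend : p + (h * M) • v = p + h • q := by
      rw [hv, smul_smul, mul_assoc, mul_inv_cancel₀ hM.ne', mul_one]
    have hupper : ∫⁻ s in Set.Icc 0 (h * M), ENNReal.ofReal (1 / f (p + s • v)) ≤
        ENNReal.ofReal (F' * (h * M)) := by
      calc ∫⁻ s in Set.Icc 0 (h * M), ENNReal.ofReal (1 / f (p + s • v))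
          ≤ ∫⁻ _ in Set.Icc 0 (h * M), ENNReal.ofReal F' := by
            refine setLIntegral_mono' measurableSet_Icc fun s hs => ?_
            apply ENNReal.ofReal_le_ofReal
            have : dist (p + s • v) p < r := by
              rw [dist_eq_norm, add_sub_cancel_left, norm_smul, hv, norm_smul, hqnorm,
                norm_inv, Real.norm_eq_abs, Real.norm_eq_abs, abs_of_pos hM,
                abs_of_nonneg hs.1, mul_one]
              calc s * M⁻¹ ≤ (h * M) * M⁻¹ := by
                    apply mul_le_mul_of_nonneg_right hs.2 (inv_nonneg.2 hM.le)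
                _ = h := by rw [mul_assoc, mul_inv_cancel₀ hM.ne', mul_one]
                _ < r := hhr
            exact (hball this).le
        _ = ENNReal.ofReal (F' * (h * M)) := by
            rw [setLIntegral_const, Real.volume_Icc, ← ENNReal.ofReal_mul hF'pos.le, sub_zero]
    have hg : gauge' i₀ (p + h • q) = 1 + 2 * h := by
      unfold gauge'
      have hterm : ∀ i, cw i₀ i * |(p + h • q) i| =
          (if i = i₀ then 1 else 0) + (if i = i₁ then 2 * h else 0) := by
        intro i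
        by_cases h0 : i = i₀
        · subst h0
          have : ¬ i = i₁ := fun h => hne h.symm
          simp [cw, hp, hqdef, this]
        · by_cases h1 : i = i₁
          · subst h1
            simp [cw, hp, hqdef, h0, abs_of_pos hh0]
          · simp [cw, hp, hqdef, h0, h1]
      rw [Finset.sum_congr rfl fun i _ => hterm i, Finset.sum_add_distrib]
      simp
    have h1 := hlowD (p + h • q)
    rw [hg] at h1
    have h2 : ENNReal.ofReal ((1 + 2 * h) ^ β) ≤ ENNReal.ofReal (1 + F' * (h * M)) := by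
      calc ENNReal.ofReal ((1 + 2 * h) ^ β) ≤ weightedDist μ f 0 (p + h • q) := h1
        _ ≤ weightedDist μ f 0 p + weightedDist μ f p (p + h • q) := weightedDist_triangle _ _ _
        _ ≤ 1 + ENNReal.ofReal (F' * (h * M)) := by
            gcongr
            rw [← hend]
            exact hseg.trans hupper
        _ = _ := by
            rw [ENNReal.ofReal_add (by norm_num) (by positivity), ENNReal.ofReal_one]
    have h3 : (1 + 2 * h) ^ β ≤ 1 + F' * (h * M) :=
      (ENNReal.ofReal_le_ofReal_iff (by positivity)).1 h2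
    have h4 := rpow_lower (x := - (2 * h)) hβ (by linarith)
    have h5 : 1 - β * (-(2 * h)) / (1 - -(2 * h)) = 1 + 2 * β * h / (1 + 2 * h) := by ring
    have h6 : (1 - -(2 * h)) ^ β = (1 + 2 * h) ^ β := by congr 1; ring
    rw [h5, h6] at h4
    have h7 : 2 * β * h / (1 + 2 * h) ≤ F' * (h * M) := by linarith
    rw [div_le_iff₀ (by linarith)] at h7
    have h8 : 2 * β ≤ F' * M * (1 + 2 * h) := by
      have : h * (2 * β) ≤ h * (F' * M * (1 + 2 * h)) := by linarith
      exact le_of_mul_le_mul_left this hh0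
    linarith
  -- Step A
  set κ : ℝ := 3 / 2 * β / M with hκ
  have hκpos : 0 < κ := by positivity
  have hκM : κ * M = 3 / 2 * β := by rw [hκ]; field_simp
  have hκF : κ < F := by
    have h1 : κ * M < F * M := by rw [hκM]; linarith
    exact lt_of_mul_lt_mul_right h1 hM.le
  obtain ⟨r₀, hr₀, hball⟩ := Metric.eventually_nhds_iff.1 (hcont.eventually (lt_mem_nhds hκF))
  set r : ℝ := min (r₀ / 2) (1 / 5) with hr
  have hrpos : 0 < r := lt_min (by linarith) (by norm_num)
  have hr5 : r ≤ 1 / 5 := min_le_right _ _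
  have hfball : ∀ y ∈ closedBall p r, κ ≤ 1 / f y := by
    intro y hy
    refine (hball (?_ : dist y p < r₀)).le
    calc dist y p ≤ r := mem_closedBall.1 hy
      _ ≤ r₀ / 2 := min_le_left _ _
      _ < r₀ := by linarith
  set η : ℝ := κ * c₀ * r / 10 with hη
  have hηpos : 0 < η := by positivity
  obtain ⟨L, hL⟩ : ∃ L : List (ℝ × E d), (UnitSpeed μ L ∧ endPt 0 L = p) ∧
      pathCost f 0 L < ENNReal.ofReal (1 + η) := by
    have h1 : weightedDist μ f 0 p < ENNReal.ofReal (1 + η) := by
      refine hDp.trans_lt ?_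
      rw [← ENNReal.ofReal_one]
      exact (ENNReal.ofReal_lt_ofReal_iff (by linarith)).2 (by linarith)
    unfold weightedDist at h1
    rw [iInf_lt_iff] at h1
    obtain ⟨L, hL⟩ := h1
    rw [iInf_lt_iff] at hL
    obtain ⟨hL1, hL2⟩ := hL
    exact ⟨L, hL1, hL2⟩
  rcases last_exit p r κ hrpos hκpos.le hfball L 0 hL.1.1 hL.1.2 with ⟨hin, _⟩ | ⟨w, hw, hc⟩
  · rw [mem_closedBall, dist_zero_left, hpnorm] at hin
    linarith
  · have h1 : ENNReal.ofReal (gauge' i₀ w ^ β + κ * μ (p - w)) < ENNReal.ofReal (1 + η) := by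
      rw [ENNReal.ofReal_add (Real.rpow_nonneg (gauge_nonneg i₀ w) _)
        (mul_nonneg hκpos.le (apply_nonneg _ _))]
      calc _ ≤ weightedDist μ f 0 w + ENNReal.ofReal (κ * μ (p - w)) := by
            gcongr
            exact hlowD w
        _ ≤ pathCost f 0 L := hc
        _ < _ := hL.2
    have h2 : gauge' i₀ w ^ β + κ * μ (p - w) < 1 + η :=
      (ENNReal.ofReal_lt_ofReal_iff (by linarith)).1 h1
    have hnorm : ‖p - w‖ = r := by
      rw [← dist_eq_norm, dist_comm]
      exact mem_sphere.1 hw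
    have hμ1 : c₀ * r ≤ μ (p - w) := by
      have := hlow (p - w)
      rwa [hnorm] at this
    have hμ2 := hproj (p - w)
    have hx : (p - w) i₀ = 1 - w i₀ := by simp [hp]
    rw [hx] at hμ2
    set x : ℝ := 1 - w i₀ with hxdef
    have hxr : |x| ≤ r := by
      rw [← hx, ← hnorm]
      exact PiLp.norm_apply_le (p - w) i₀
    have hxr' := abs_le.1 hxr
    have hgw : 1 - x ≤ gauge' i₀ w := by
      have h3 := abs_le_gauge i₀ w i₀
      have h4 : w i₀ = 1 - x := by rw [hxdef]; ring
      rw [h4] at h3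
      exact (le_abs_self _).trans h3
    have h10 : κ * (c₀ * r) ≤ κ * μ (p - w) := mul_le_mul_of_nonneg_left hμ1 hκpos.le
    have hη10 : κ * (c₀ * r) = 10 * η := by rw [hη]; ring
    rcases le_or_gt x 0 with hx0 | hx0
    · have h3 : (1 : ℝ) ≤ gauge' i₀ w ^ β := by
        apply Real.one_le_rpow _ hβ.le
        linarith
      linarith
    · have h3 : (1 - x) ^ β ≤ gauge' i₀ w ^ β :=
        Real.rpow_le_rpow (by linarith) hgw hβ.le
      have h4 := rpow_lower (x := x) hβ (by linarith)
      have h5 : β * x / (1 - x) ≤ 5 / 4 * (β * x) := by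
        rw [div_le_iff₀ (by linarith)]
        have hbx : 0 < β * x := mul_pos hβ hx0
        nlinarith
      have h6 : 3 / 2 * (β * x) ≤ κ * μ (p - w) := by
        calc 3 / 2 * (β * x) = κ * (|x| * M) := by
              rw [abs_of_pos hx0]
              calc 3 / 2 * (β * x) = (3 / 2 * β) * x := by ring
                _ = κ * M * x := by rw [hκM]
                _ = κ * (x * M) := by ring
          _ ≤ _ := mul_le_mul_of_nonneg_left hμ2 hκpos.le
      linarith

end Pool.Agent.MP_41ff67_pr
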