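import Mathlib

set_option autoImplicit false

open MeasureTheory ProbabilityTheory Filter Metric
open scoped ENNReal NNReal Topology Pointwise RealInnerProductSpace

namespace Pool.Agent.MP_41ff67_pr

/-- Euclidean space of dimension `d`. -/
abbrev E (d : ℕ) : Type := EuclideanSpace ℝ (Fin d)

/-! ### The unweighted Eden model -/

/-- The nearest-neighbour graph on `ℤ^d`. -/
def latticeGraph (d : ℕ) : SimpleGraph (Fin d → ℤ) where
  Adj x y := ∑ i, |x i - y i| = 1
  symm := ⟨fun x y h => by simpa [abs_sub_comm] using h⟩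
  loopless := ⟨fun x h => by simp at h⟩

instance : IsProbabilityMeasure (expMeasure 1) := isProbabilityMeasure_expMeasure one_pos

/-- The law of independent exponential passage times of parameter `1`, indexed by the unordered
pairs of lattice points (only the nearest-neighbour pairs will be used). -/
noncomputable def edgeLaw (d : ℕ) : Measure (Sym2 (Fin d → ℤ) → ℝ) :=
  Measure.infinitePi (fun _ => expMeasure 1)

/-- The passage time from `x` to `y`: infimum over nearest-neighbour paths of the sum of the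
passage times of the edges crossed. -/
noncomputable def passageTime {d : ℕ} (τ : Sym2 (Fin d → ℤ) → ℝ) (x y : Fin d → ℤ) : ℝ≥0∞ :=
  ⨅ p : (latticeGraph d).Walk x y, (p.edges.map fun e => ENNReal.ofReal (τ e)).sum

/-- A lattice point as a point of Euclidean space. -/
noncomputable def toE {d : ℕ} (x : Fin d → ℤ) : E d := WithLp.toLp 2 (fun i => (x i : ℝ))

/-- `A` is the limit shape of the unweighted model: almost surely, for every `δ ∈ (0, 1)`, for all
large `t`, `(1 - δ) t A ∩ ℤ^d ⊆ {x : passageTime 0 x ≤ t} ⊆ (1 + δ) t A`. -/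
def IsEdenShape {d : ℕ} (A : Set (E d)) : Prop :=
  ∀ᵐ τ ∂(edgeLaw d), ∀ δ ∈ Set.Ioo (0 : ℝ) 1, ∀ᶠ t : ℝ in atTop, ∀ x : Fin d → ℤ,
    (toE x ∈ ((1 - δ) * t) • A → passageTime τ 0 x ≤ ENNReal.ofReal t) ∧
    (passageTime τ 0 x ≤ ENNReal.ofReal t → toE x ∈ ((1 + δ) * t) • A)

/-- `μ` is the norm whose closed unit ball is the limit shape of the unweighted Eden model. -/
def IsEdenNorm {d : ℕ} (μ : Seminorm ℝ (E d)) : Prop :=
  (∀ z, μ z = 0 → z = 0) ∧ IsEdenShape {z | μ z ≤ 1}

/-- `μ` is a norm that is invariant under the symmetries of `ℤ^d` (permutations of the coordinates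
and sign changes of coordinates). -/
def IsSymmetricNorm {d : ℕ} (μ : Seminorm ℝ (E d)) : Prop :=
  (∀ z, μ z = 0 → z = 0) ∧
  (∀ (σ : Equiv.Perm (Fin d)) (z : E d), μ (WithLp.toLp 2 fun i => z (σ i)) = μ z) ∧
  (∀ (s : Fin d → ℤˣ) (z : E d), μ (WithLp.toLp 2 fun i => ((s i : ℤ) : ℝ) * z i) = μ z)

/-! ### Weight functions and the weighted metric -/

/-- `f` is an `α`-weight function: `f(z) = |z|^α f₀(z/|z|)` for `z ≠ 0`, with `f₀` strictly positive
and Lipschitz on the unit sphere. -/
def IsWeight {d : ℕ} (α : ℝ) (f : E d → ℝ) : Prop :=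
  ∃ f₀ : E d → ℝ, (∀ z ∈ sphere (0 : E d) 1, 0 < f₀ z) ∧
    (∃ C : ℝ≥0, LipschitzOnWith C f₀ (sphere (0 : E d) 1)) ∧
    ∀ z, z ≠ 0 → f z = ‖z‖ ^ α * f₀ (‖z‖⁻¹ • z)

/-- The endpoint of the piecewise linear path from `z` that runs for time `t₁` with velocity `v₁`,
then for time `t₂` with velocity `v₂`, and so on. -/
noncomputable def endPt {d : ℕ} : E d → List (ℝ × E d) → E d
  | z, [] => z
  | z, s :: L => endPt (z + s.1 • s.2) L

/-- The integral of `1 / f` along the piecewise linear path. -/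
noncomputable def pathCost {d : ℕ} (f : E d → ℝ) : E d → List (ℝ × E d) → ℝ≥0∞
  | _, [] => 0
  | z, s :: L =>
      (∫⁻ t in Set.Icc 0 s.1, ENNReal.ofReal (1 / f (z + t • s.2))) + pathCost f (z + s.1 • s.2) L

/-- The path is parametrised by `μ`-length: durations are nonnegative and velocities have
`μ`-norm `1`. -/
def UnitSpeed {d : ℕ} (μ : Seminorm ℝ (E d)) (L : List (ℝ × E d)) : Prop :=
  ∀ s ∈ L, 0 ≤ s.1 ∧ μ s.2 = 1

/-- The metric `D(z, w)`: infimum of the integral of `1 / f` over piecewise linear paths from `z`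
to `w` parametrised by `μ`-length. -/
noncomputable def weightedDist {d : ℕ} (μ : Seminorm ℝ (E d)) (f : E d → ℝ) (z w : E d) : ℝ≥0∞ :=
  ⨅ (L : List (ℝ × E d)) (_ : UnitSpeed μ L ∧ endPt z L = w), pathCost f z L

/-- The closed `D`-ball of radius `1` about the origin, the limit shape of the weighted model. -/
def weightedShape {d : ℕ} (μ : Seminorm ℝ (E d)) (f : E d → ℝ) : Set (E d) :=
  {z | weightedDist μ f 0 z ≤ 1}

/-! ### Conditions on the set `K` -/

/-- Lipschitz boundary: near each boundary point `x` there is a unit vector `e` and a Lipschitz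
function `g`, constant in the direction `e`, such that `K` is the region `{y : ⟪e, y⟫ ≤ g y}`. -/
def HasLipschitzBoundary {d : ℕ} (K : Set (E d)) : Prop :=
  ∀ x ∈ frontier K, ∃ (e : E d) (g : E d → ℝ) (C : ℝ≥0) (r : ℝ), ‖e‖ = 1 ∧ 0 < r ∧
    LipschitzWith C g ∧ (∀ (y : E d) (t : ℝ), g (y + t • e) = g y) ∧
    ∀ y ∈ ball x r, (y ∈ K ↔ ⟪e, y⟫ ≤ g y)

/-- The boundary of `K` meets every ray from `0` in exactly one point. -/
def MeetsRaysOnce {d : ℕ} (K : Set (E d)) : Prop :=
  ∀ θ : E d, θ ≠ 0 → ∃! t : ℝ, 0 ≤ t ∧ t • θ ∈ frontier K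

/-- The sets considered in Q1. -/
structure IsAdmissible {d : ℕ} (K : Set (E d)) : Prop where
  compact : IsCompact K
  lipschitz : HasLipschitzBoundary K
  nhds : K ∈ 𝓝 (0 : E d)
  rays : MeetsRaysOnce K

end Pool.Agent.MP_41ff67_pr
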