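import Pool.Agent.MP_41ff67_pr.Eden

set_option autoImplicit false

open MeasureTheory ProbabilityTheory Filter Metric
open scoped ENNReal NNReal Topology Pointwise RealInnerProductSpace

namespace Pool.Agent.MP_41ff67_pr

lemma inter_frontier {X : Type*} [TopologicalSpace X] {s t : Set X} (hs : IsPreconnected s)
    (h1 : (s ∩ t).Nonempty) (h2 : (s ∩ tᶜ).Nonempty) : (s ∩ frontier t).Nonempty := by
  by_contra hne
  rw [Set.not_nonempty_iff_eq_empty] at hne
  have hno : ∀ x ∈ s, x ∉ frontier t := fun x hx hf => by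
    have : x ∈ s ∩ frontier t := ⟨hx, hf⟩
    rw [hne] at this
    exact this
  have hin : ∀ x ∈ s, x ∈ t → x ∈ interior t := fun x hx ht => by
    by_contra hcon
    exact hno x hx ⟨subset_closure ht, hcon⟩
  have hout : ∀ x ∈ s, x ∉ t → x ∈ (closure t)ᶜ := fun x hx ht hcon =>
    hno x hx ⟨hcon, fun h => ht (interior_subset h)⟩
  obtain ⟨x, hx, hxt⟩ := h1
  obtain ⟨y, hy, hyt⟩ := h2
  obtain ⟨z, -, hz1, hz2⟩ := hs (interior t) (closure t)ᶜ isOpen_interior
    isClosed_closure.isOpen_compl
    (fun w hw => by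
      by_cases hwt : w ∈ t
      · exact Or.inl (hin w hw hwt)
      · exact Or.inr (hout w hw hwt))
    ⟨x, hx, hin x hx hxt⟩ ⟨y, hy, hout y hy hyt⟩
  exact hz2 (subset_closure (interior_subset hz1))

/-- On each ray an admissible set is an initial segment, of positive length. -/
lemma ray_mem {d : ℕ} {K : Set (E d)} (hK : IsAdmissible K) (θ : E d) (hθ : θ ≠ 0) :
    ∃ c : ℝ, 0 < c ∧ ∀ t : ℝ, 0 ≤ t → (t • θ ∈ K ↔ t ≤ c) := by
  obtain ⟨c, ⟨hc0, hc⟩, huniq⟩ := hK.rays θ hθ
  have hclosed : IsClosed K := hK.compact.isClosed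
  have hcK : c • θ ∈ K := hclosed.frontier_subset hc
  have h0int : (0 : E d) ∈ interior K := mem_interior_iff_mem_nhds.2 hK.nhds
  have h0K : (0 : E d) ∈ K := interior_subset h0int
  have hcpos : 0 < c := by
    refine lt_of_le_of_ne hc0 fun h => ?_
    rw [← h, zero_smul] at hc
    exact hc.2 h0int
  have hconn : ∀ s t : ℝ, IsPreconnected ((fun u : ℝ => u • θ) '' Set.Icc s t) := fun s t =>
    isPreconnected_Icc.image _ (by fun_prop)
  refine ⟨c, hcpos, fun t ht => ⟨fun htK => ?_, fun htc => ?_⟩⟩
  · by_contra hlt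
    push Not at hlt
    -- far away the ray is outside
    obtain ⟨R, hR⟩ := hK.compact.isBounded.subset_closedBall 0
    have hθn : 0 < ‖θ‖ := norm_pos_iff.2 hθ
    set T : ℝ := max t (R / ‖θ‖ + 1) with hT
    have hTK : T • θ ∉ K := by
      intro h
      have h1 := hR h
      rw [mem_closedBall_zero_iff, norm_smul, Real.norm_eq_abs,
        abs_of_nonneg (ht.trans (le_max_left _ _))] at h1
      have h2 : R / ‖θ‖ + 1 ≤ T := le_max_right _ _
      have h3 : R < T * ‖θ‖ := by
        rw [← div_lt_iff₀ hθn]; linarith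
      linarith
    obtain ⟨y, ⟨u, hu, rfl⟩, hy⟩ := inter_frontier (t := K) (hconn t T)
      ⟨t • θ, ⟨t, ⟨le_rfl, le_max_left _ _⟩, rfl⟩, htK⟩
      ⟨T • θ, ⟨T, ⟨le_max_left _ _, le_rfl⟩, rfl⟩, hTK⟩
    have := huniq u ⟨ht.trans hu.1, hy⟩
    have h4 := hu.1
    linarith
  · rcases eq_or_lt_of_le htc with h | h
    · rw [h]; exact hcK
    · by_contra htK
      obtain ⟨y, ⟨u, hu, rfl⟩, hy⟩ := inter_frontier (t := K) (hconn 0 t)
        ⟨0, ⟨0, ⟨le_rfl, ht⟩, zero_smul _ _⟩, h0K⟩
        ⟨t • θ, ⟨t, ⟨ht, le_rfl⟩, rfl⟩, htK⟩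
      have := huniq u ⟨hu.1, hy⟩
      have h4 := hu.2
      linarith

variable {μ : Seminorm ℝ (E 1)} {f : E 1 → ℝ}

lemma eq_smul_single (z : E 1) : z = z 0 • EuclideanSpace.single 0 (1 : ℝ) := by
  ext i
  have : i = 0 := Subsingleton.elim _ _
  subst this
  simp

lemma mu_one (z : E 1) : μ z = |z 0| * μ (EuclideanSpace.single 0 (1 : ℝ)) := by
  conv_lhs => rw [eq_smul_single z]
  rw [map_smul_eq_mul, Real.norm_eq_abs]

/-- One-dimensional lower bound along one of the two directions. -/
lemma lower_one (σ c : ℝ) (hσ : |σ| = 1) (hc : 0 < c)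
    (hM : 0 < μ (EuclideanSpace.single 0 (1 : ℝ)))
    (hf : ∀ z : E 1, 0 < σ * z 0 → f z = μ (EuclideanSpace.single 0 (1 : ℝ)) * c)
    (L : List (ℝ × E 1)) : ∀ z : E 1, UnitSpeed μ L →
    ENNReal.ofReal (max (σ * (endPt z L) 0) 0 / c - max (σ * z 0) 0 / c) ≤ pathCost f z L := by
  set M := μ (EuclideanSpace.single 0 (1 : ℝ)) with hMdef
  induction L with
  | nil => intro z _; simp [endPt_nil]
  | cons s L ih =>
    intro z hL
    obtain ⟨τ, v⟩ := s
    have hs : 0 ≤ τ ∧ μ v = 1 := hL (τ, v) (List.mem_cons_self ..)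
    have hL' : UnitSpeed μ L := fun s hs => hL s (List.mem_cons_of_mem _ hs)
    rw [endPt_cons, pathCost_cons]
    simp only
    set z' : E 1 := z + τ • v with hz'
    have hseg : ENNReal.ofReal (max (σ * z' 0) 0 / c - max (σ * z 0) 0 / c) ≤
        ∫⁻ t in Set.Icc 0 τ, ENNReal.ofReal (1 / f (z + t • v)) := by
      have hzc : σ * z' 0 = σ * z 0 + τ * (σ * v 0) := by
        rw [hz']; simp; ring
      rcases le_or_gt (max (σ * z' 0) 0) (max (σ * z 0) 0) with h | h
      · rw [ENNReal.ofReal_of_nonpos]
        · exact zero_le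
        · rw [sub_nonpos]; gcongr
      · have hpos : 0 < σ * z' 0 := by
          by_contra hcon
          push Not at hcon
          rw [max_eq_right hcon] at h
          exact absurd h (not_lt.2 (le_max_right _ _))
        rw [max_eq_left hpos.le] at h ⊢
        have hgt : σ * z 0 < σ * z' 0 := (le_max_left _ _).trans_lt h
        have hτ : 0 < τ := by
          refine lt_of_le_of_ne hs.1 fun h0 => ?_
          rw [← h0, zero_mul, add_zero] at hzc
          linarith
        have hvpos : 0 < σ * v 0 := by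
          by_contra hcon
          push Not at hcon
          have : τ * (σ * v 0) ≤ 0 := mul_nonpos_of_nonneg_of_nonpos hs.1 hcon
          linarith
        have hvM : σ * v 0 * M = 1 := by
          have h1 : |v 0| * M = 1 := by rw [← mu_one (μ := μ) v]; exact hs.2
          have h2 : σ * v 0 = |v 0| := by
            rw [← abs_of_pos hvpos, abs_mul, hσ, one_mul]
          rw [h2, h1]
        -- time of entrance
        set s₀ : ℝ := max 0 (-(σ * z 0 * M)) with hs₀
        have hs₀0 : 0 ≤ s₀ := le_max_left _ _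
        have hval : σ * z' 0 / c - max (σ * z 0) 0 / c = 1 / (M * c) * (τ - s₀) := by
          rcases le_total 0 (σ * z 0) with h0 | h0
          · rw [max_eq_left h0]
            have : s₀ = 0 := by
              rw [hs₀]; apply max_eq_left
              have : 0 ≤ σ * z 0 * M := mul_nonneg h0 hM.le
              linarith
            rw [this, hzc]
            field_simp
            linear_combination τ * hvM
          · rw [max_eq_right h0]
            have : s₀ = -(σ * z 0 * M) := by
              rw [hs₀]; apply max_eq_right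
              have : σ * z 0 * M ≤ 0 := mul_nonpos_of_nonpos_of_nonneg h0 hM.le
              linarith
            rw [this, hzc]
            field_simp
            linear_combination τ * hvM
        have hs₀τ : s₀ < τ := by
          have h1 : 0 < 1 / (M * c) * (τ - s₀) := by
            rw [← hval]
            have : 0 < (σ * z' 0 - max (σ * z 0) 0) / c := div_pos (by linarith) hc
            rw [sub_div] at this
            exact this
          have h2 : 0 < 1 / (M * c) := by positivity
          have h3 := (mul_pos_iff_of_pos_left h2).1 h1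
          linarith
        rw [hval]
        calc ENNReal.ofReal (1 / (M * c) * (τ - s₀))
            = ∫⁻ _ in Set.Ioc s₀ τ, ENNReal.ofReal (1 / (M * c)) := by
              rw [setLIntegral_const, Real.volume_Ioc, ENNReal.ofReal_mul (by positivity)]
          _ ≤ ∫⁻ t in Set.Ioc s₀ τ, ENNReal.ofReal (1 / f (z + t • v)) := by
              refine setLIntegral_mono' measurableSet_Ioc fun t ht => ?_
              have hcoord : 0 < σ * (z + t • v) 0 := by
                have h1 : σ * (z + t • v) 0 = σ * z 0 + t * (σ * v 0) := by simp; ring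
                rw [h1]
                have h2 : (σ * z 0 + t * (σ * v 0)) * M = σ * z 0 * M + t := by
                  linear_combination t * hvM
                have h3 : 0 < (σ * z 0 + t * (σ * v 0)) * M := by
                  rw [h2]
                  have h4 : -(σ * z 0 * M) ≤ s₀ := le_max_right _ _
                  have h5 := ht.1
                  linarith
                exact (mul_pos_iff_of_pos_right hM).1 h3
              rw [hf _ hcoord]
          _ ≤ _ := by
              apply lintegral_mono_set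
              intro t ht
              exact ⟨hs₀0.trans ht.1.le, ht.2⟩
    calc ENNReal.ofReal (max (σ * (endPt z' L) 0) 0 / c - max (σ * z 0) 0 / c)
        = ENNReal.ofReal ((max (σ * z' 0) 0 / c - max (σ * z 0) 0 / c) +
          (max (σ * (endPt z' L) 0) 0 / c - max (σ * z' 0) 0 / c)) := by congr 1; ring
      _ ≤ ENNReal.ofReal (max (σ * z' 0) 0 / c - max (σ * z 0) 0 / c) +
          ENNReal.ofReal (max (σ * (endPt z' L) 0) 0 / c - max (σ * z' 0) 0 / c) :=
          ENNReal.ofReal_add_le
      _ ≤ _ := add_le_add hseg (ih z' hL')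

/-- One-dimensional upper bound. -/
lemma upper_one (σ c : ℝ) (hσ : |σ| = 1) (hc : 0 < c)
    (hM : 0 < μ (EuclideanSpace.single 0 (1 : ℝ)))
    (hf : ∀ z : E 1, 0 < σ * z 0 → f z = μ (EuclideanSpace.single 0 (1 : ℝ)) * c)
    (z : E 1) (hz : 0 ≤ σ * z 0) :
    weightedDist μ f 0 z ≤ ENNReal.ofReal (σ * z 0 / c) := by
  set M := μ (EuclideanSpace.single 0 (1 : ℝ)) with hMdef
  have hσ2 : σ * σ = 1 := by
    rw [← abs_mul_abs_self, hσ]; norm_num
  set v : E 1 := (σ / M) • EuclideanSpace.single 0 (1 : ℝ) with hv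
  have hv0 : v 0 = σ / M := by simp [hv]
  have hμv : μ v = 1 := by
    rw [hv, map_smul_eq_mul, Real.norm_eq_abs, abs_div, hσ, abs_of_pos hM, ← hMdef]
    field_simp
  have h1 := weightedDist_segment (μ := μ) (f := f) 0 v (σ * z 0 * M) (by positivity) hμv
  have hend : 0 + (σ * z 0 * M) • v = z := by
    rw [zero_add]
    conv_rhs => rw [eq_smul_single z]
    rw [hv, smul_smul]
    congr 1
    field_simp
    linear_combination (z 0) * hσ2
  rw [hend] at h1
  refine h1.trans ?_
  have e1 : ∫⁻ s in Set.Icc 0 (σ * z 0 * M), ENNReal.ofReal (1 / f (0 + s • v)) =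
      ∫⁻ s in Set.Ioc 0 (σ * z 0 * M), ENNReal.ofReal (1 / f (0 + s • v)) :=
    setLIntegral_congr Ioc_ae_eq_Icc.symm
  rw [e1]
  calc ∫⁻ s in Set.Ioc 0 (σ * z 0 * M), ENNReal.ofReal (1 / f (0 + s • v))
      ≤ ∫⁻ _ in Set.Ioc 0 (σ * z 0 * M), ENNReal.ofReal (1 / (M * c)) := by
        refine setLIntegral_mono' measurableSet_Ioc fun s hs => ?_
        have : 0 < σ * (0 + s • v) 0 := by
          have h2 : σ * (0 + s • v) 0 = s / M := by
            simp [hv0]
            field_simp
            linear_combination s * hσ2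
          rw [h2]
          exact div_pos hs.1 hM
        rw [hf _ this]
    _ = ENNReal.ofReal (σ * z 0 / c) := by
        rw [setLIntegral_const, Real.volume_Ioc, ← ENNReal.ofReal_mul (by positivity)]
        congr 1
        field_simp
        ring

theorem dim_one (hμ : ∀ z, μ z = 0 → z = 0) (K : Set (E 1)) (hK : IsAdmissible K) :
    ∃ (α : ℝ) (f : E 1 → ℝ), α < 1 ∧ IsWeight α f ∧ weightedShape μ f = K := by
  set e : E 1 := EuclideanSpace.single 0 (1 : ℝ) with he
  set M := μ e with hM
  have he0 : e ≠ 0 := by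
    intro h
    have : e 0 = 0 := by rw [h]; rfl
    simp [he] at this
  have hMpos : 0 < M := lt_of_le_of_ne (apply_nonneg _ _) fun h => he0 (hμ _ h.symm)
  obtain ⟨b, hb, hbK⟩ := ray_mem hK e he0
  obtain ⟨a, ha, haK⟩ := ray_mem hK (-e) (neg_ne_zero.2 he0)
  set f₀ : E 1 → ℝ := fun y => M * ((a + b) / 2 + (b - a) / 2 * y 0) with hf₀
  set f : E 1 → ℝ := fun z => f₀ (‖z‖⁻¹ • z) with hf
  have hnorm : ∀ z : E 1, ‖z‖ = |z 0| := by
    intro z
    conv_lhs => rw [eq_smul_single z]
    rw [norm_smul]; simp
  have hfpos : ∀ z : E 1, 0 < 1 * z 0 → f z = M * b := by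
    intro z hz
    rw [one_mul] at hz
    simp only [hf, hf₀, PiLp.smul_apply, smul_eq_mul]
    rw [hnorm, abs_of_pos hz, inv_mul_cancel₀ hz.ne']
    ring
  have hfneg : ∀ z : E 1, 0 < -1 * z 0 → f z = M * a := by
    intro z hz
    have hz' : z 0 < 0 := by linarith
    simp only [hf, hf₀, PiLp.smul_apply, smul_eq_mul]
    rw [hnorm, abs_of_neg hz']
    have : (-z 0)⁻¹ * z 0 = -1 := by
      rw [inv_neg, neg_mul, inv_mul_cancel₀ hz'.ne]
    rw [this]
    ring
  refine ⟨0, f, one_pos, ⟨f₀, ?_, ?_, ?_⟩, ?_⟩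
  · intro z hz
    rw [mem_sphere_zero_iff_norm, hnorm] at hz
    rcases (abs_eq (zero_le_one)).1 hz with h | h
    · simp only [hf₀, h]
      have : (a + b) / 2 + (b - a) / 2 * 1 = b := by ring
      rw [this]; positivity
    · simp only [hf₀, h]
      have : (a + b) / 2 + (b - a) / 2 * (-1) = a := by ring
      rw [this]; positivity
  · refine ⟨‖M * ((b - a) / 2)‖₊, ?_⟩
    apply LipschitzWith.lipschitzOnWith
    refine LipschitzWith.of_dist_le_mul fun y y' => ?_
    rw [Real.dist_eq, dist_eq_norm, hnorm, coe_nnnorm, Real.norm_eq_abs]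
    simp only [hf₀, PiLp.sub_apply]
    rw [← abs_mul]
    apply le_of_eq
    congr 1
    ring
  · intro z _
    rw [Real.rpow_zero, one_mul]
  · ext z
    change weightedDist μ f 0 z ≤ 1 ↔ z ∈ K
    -- common argument
    have main : ∀ (σ c : ℝ), |σ| = 1 → 0 < c → (∀ y : E 1, 0 < σ * y 0 → f y = M * c) →
        (∀ t : ℝ, 0 ≤ t → (t • (σ • e) ∈ K ↔ t ≤ c)) → 0 ≤ σ * z 0 →
        (weightedDist μ f 0 z ≤ 1 ↔ z ∈ K) := by
      intro σ c hσ hc hfc hKc hz
      have hσ2 : σ * σ = 1 := by
        rw [← abs_mul_abs_self, hσ]; norm_num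
      have hzK : z ∈ K ↔ σ * z 0 ≤ c := by
        rw [← hKc _ hz]
        have : (σ * z 0) • (σ • e) = z := by
          conv_rhs => rw [eq_smul_single z]
          rw [smul_smul]
          congr 1
          linear_combination (z 0) * hσ2
        rw [this]
      rw [hzK]
      constructor
      · intro h
        by_contra hcon
        push Not at hcon
        have h1 : ENNReal.ofReal (σ * z 0 / c) ≤ weightedDist μ f 0 z := by
          unfold weightedDist
          refine le_iInf fun L => le_iInf fun hL => ?_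
          have h2 := lower_one (μ := μ) (f := f) σ c hσ hc hMpos hfc L 0 hL.1
          rw [hL.2, max_eq_left hz] at h2
          simpa using h2
        have h3 : ENNReal.ofReal (σ * z 0 / c) ≤ 1 := h1.trans h
        rw [← ENNReal.ofReal_one, ENNReal.ofReal_le_ofReal_iff (by norm_num),
          div_le_one hc] at h3
        linarith
      · intro h
        refine (upper_one (μ := μ) (f := f) σ c hσ hc hMpos hfc z hz).trans ?_
        rw [← ENNReal.ofReal_one]
        apply ENNReal.ofReal_le_ofReal
        rwa [div_le_one hc]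
    rcases le_total 0 (z 0) with h | h
    · refine main 1 b (by norm_num) hb hfpos ?_ (by linarith)
      intro t ht
      rw [one_smul]
      exact hbK t ht
    · refine main (-1) a (by norm_num) ha hfneg ?_ (by linarith)
      intro t ht
      rw [neg_smul, one_smul]
      exact haK t ht

end Pool.Agent.MP_41ff67_pr
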