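import Pool.Agent.MP_41ff67_pr.Symm

set_option autoImplicit false

open MeasureTheory ProbabilityTheory Filter Metric
open scoped ENNReal NNReal Topology Pointwise RealInnerProductSpace

namespace Pool.Agent.MP_41ff67_pr

variable {d : ℕ} {μ : Seminorm ℝ (E d)}

lemma mem_smul_ball (R : ℝ) (hR : 0 < R) (z : E d) :
    z ∈ R • {z : E d | μ z ≤ 1} ↔ μ z ≤ R := by
  rw [Set.mem_smul_set_iff_inv_smul_mem₀ hR.ne']
  simp only [Set.mem_ofPred_eq]
  rw [map_smul_eq_mul, norm_inv, Real.norm_eq_abs, abs_of_pos hR, inv_mul_le_iff₀ hR, mul_one]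

lemma toE_nsmul (n : ℕ) (x : Fin d → ℤ) : toE (fun i => (n : ℤ) * x i) = (n : ℝ) • toE x := by
  ext i
  simp [toE]

lemma gE_smul (σ : Equiv.Perm (Fin d)) (s : Fin d → ℤˣ) (c : ℝ) (z : E d) :
    gE σ s (c • z) = c • gE σ s z := by
  ext i
  simp [gE]
  ring

lemma gE_continuous (σ : Equiv.Perm (Fin d)) (s : Fin d → ℤˣ) : Continuous (gE σ s) := by
  unfold gE
  fun_prop

instance : IsProbabilityMeasure (edgeLaw d) := by
  unfold edgeLaw
  infer_instance

lemma eden_lattice (hμ : IsEdenNorm μ) (σ : Equiv.Perm (Fin d)) (s : Fin d → ℤˣ)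
    (x : Fin d → ℤ) : μ (gE σ s (toE x)) ≤ μ (toE x) := by
  by_cases hx : toE x = 0
  · rw [hx]
    have : gE σ s (0 : E d) = 0 := by ext i; simp [gE]
    rw [this]
  have hpos : 0 < μ (toE x) :=
    lt_of_le_of_ne (apply_nonneg _ _) fun h => hx (hμ.1 _ h.symm)
  set φ := gIso σ s with hφ
  have h1 := hμ.2
  have h2 := (edgeLaw_map φ).quasiMeasurePreserving.ae h1
  obtain ⟨τ, hτ1, hτ2⟩ := (h1.and h2).exists
  have key : ∀ δ ∈ Set.Ioo (0 : ℝ) 1,
      μ (gE σ s (toE x)) ≤ (1 + δ) / (1 - δ) * μ (toE x) := by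
    intro δ hδ
    have hδ1 : 0 < 1 - δ := by linarith [hδ.2]
    have hδ2 : 0 < 1 + δ := by linarith [hδ.1]
    have htend : Tendsto (fun n : ℕ => (n : ℝ) * μ (toE x) / (1 - δ)) atTop atTop := by
      apply Tendsto.atTop_div_const hδ1
      exact (tendsto_natCast_atTop_atTop).atTop_mul_const hpos
    obtain ⟨n, hn1, hn2, hn3⟩ := ((htend.eventually (hτ1 δ hδ)).and
      ((htend.eventually (hτ2 δ hδ)).and (eventually_gt_atTop 0))).exists
    have hn : (0 : ℝ) < n := by exact_mod_cast hn3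
    set t : ℝ := (n : ℝ) * μ (toE x) / (1 - δ) with ht
    have htpos : 0 < t := by positivity
    have e1 : (1 - δ) * t = n * μ (toE x) := by rw [ht]; field_simp
    have h3 := (hn2 (fun i => (n : ℤ) * x i)).1
    rw [toE_nsmul, e1, mem_smul_ball _ (by positivity), map_smul_eq_mul, Real.norm_eq_abs,
      abs_of_pos hn] at h3
    have h4 := h3 le_rfl
    rw [passageTime_eq] at h4
    have e2 : φ 0 = 0 := by
      change gZ σ s 0 = 0
      funext i; simp [gZ]
    rw [e2] at h4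
    have h5 := (hn1 (φ (fun i => (n : ℤ) * x i))).2 h4
    have e3 : toE (φ (fun i => (n : ℤ) * x i)) = (n : ℝ) • gE σ s (toE x) := by
      change toE (gZ σ s (fun i => (n : ℤ) * x i)) = _
      rw [toE_gZ, toE_nsmul, gE_smul]
    rw [e3, mem_smul_ball _ (by positivity), map_smul_eq_mul, Real.norm_eq_abs,
      abs_of_pos hn] at h5
    have e4 : (1 + δ) * t = n * ((1 + δ) / (1 - δ) * μ (toE x)) := by rw [ht]; field_simp
    rw [e4] at h5
    exact le_of_mul_le_mul_left h5 hn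
  have hlim : Tendsto (fun δ : ℝ => (1 + δ) / (1 - δ) * μ (toE x)) (𝓝[>] 0)
      (𝓝 ((1 + 0) / (1 - 0) * μ (toE x))) := by
    have hc : ContinuousAt (fun δ : ℝ => (1 + δ) / (1 - δ) * μ (toE x)) 0 := by
      apply ContinuousAt.mul _ continuousAt_const
      apply ContinuousAt.div (by fun_prop) (by fun_prop)
      norm_num
    exact hc.tendsto.mono_left nhdsWithin_le_nhds
  have h6 : μ (gE σ s (toE x)) ≤ (1 + 0) / (1 - 0) * μ (toE x) := by
    refine ge_of_tendsto hlim ?_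
    filter_upwards [Ioo_mem_nhdsGT (show (0 : ℝ) < 1 by norm_num)] with δ hδ
    exact key δ hδ
  simpa using h6

lemma tendsto_floor (a : ℝ) :
    Tendsto (fun n : ℕ => (n : ℝ)⁻¹ * (⌊(n : ℝ) * a⌋ : ℝ)) atTop (𝓝 a) := by
  rw [tendsto_iff_dist_tendsto_zero]
  refine squeeze_zero' (Eventually.of_forall fun _ => dist_nonneg) ?_
    tendsto_inv_atTop_nhds_zero_nat
  filter_upwards [eventually_gt_atTop 0] with n hn
  have hn' : (0 : ℝ) < n := by exact_mod_cast hn
  rw [Real.dist_eq]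
  have h1 : (n : ℝ)⁻¹ * (⌊(n : ℝ) * a⌋ : ℝ) - a = (n : ℝ)⁻¹ * ((⌊(n : ℝ) * a⌋ : ℝ) - n * a) := by
    field_simp
  rw [h1, abs_mul, abs_of_pos (inv_pos.2 hn')]
  have h2 : |(⌊(n : ℝ) * a⌋ : ℝ) - n * a| ≤ 1 := by
    rw [abs_le]
    constructor
    · linarith [Int.lt_floor_add_one ((n : ℝ) * a)]
    · linarith [Int.floor_le ((n : ℝ) * a)]
  calc (n : ℝ)⁻¹ * |(⌊(n : ℝ) * a⌋ : ℝ) - n * a| ≤ (n : ℝ)⁻¹ * 1 := by gcongr
    _ = (n : ℝ)⁻¹ := mul_one _

lemma eden_le (hμ : IsEdenNorm μ) (σ : Equiv.Perm (Fin d)) (s : Fin d → ℤˣ) (z : E d) :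
    μ (gE σ s z) ≤ μ z := by
  set w : ℕ → E d := fun n => (n : ℝ)⁻¹ • toE (fun i => ⌊(n : ℝ) * z i⌋) with hw
  have hlim : Tendsto w atTop (𝓝 z) := by
    have h1 : Tendsto (fun n : ℕ => (fun i => (n : ℝ)⁻¹ * (⌊(n : ℝ) * z i⌋ : ℝ) : Fin d → ℝ))
        atTop (𝓝 (fun i => z i)) := tendsto_pi_nhds.2 fun i => tendsto_floor (z i)
    have h2 := ((PiLp.continuous_toLp 2 (fun _ : Fin d => ℝ)).tendsto (fun i => z i)).comp h1
    have h3 : (WithLp.toLp 2 fun i => z i) = z := rfl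
    rw [h3] at h2
    refine h2.congr fun n => ?_
    ext i
    simp [hw, toE]
  have h1 : Tendsto (fun n => μ (gE σ s (w n))) atTop (𝓝 (μ (gE σ s z))) :=
    (((seminorm_continuous μ).comp (gE_continuous σ s)).tendsto z).comp hlim
  have h2 : Tendsto (fun n => μ (w n)) atTop (𝓝 (μ z)) :=
    ((seminorm_continuous μ).tendsto z).comp hlim
  refine le_of_tendsto_of_tendsto' h1 h2 fun n => ?_
  simp only [hw]
  rw [gE_smul, map_smul_eq_mul, map_smul_eq_mul]
  exact mul_le_mul_of_nonneg_left (eden_lattice hμ σ s _) (norm_nonneg _)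

lemma gE_inv (σ : Equiv.Perm (Fin d)) (s : Fin d → ℤˣ) (z : E d) :
    gE σ.symm (fun i => s (σ.symm i)) (gE σ s z) = z := by
  ext i
  unfold gE
  simp only [Equiv.apply_symm_apply]
  rw [← mul_assoc]
  rcases Int.units_eq_one_or (s (σ.symm i)) with h | h <;> simp [h]

theorem eden_symmetric (hμ : IsEdenNorm μ) : IsSymmetricNorm μ := by
  have key : ∀ (σ : Equiv.Perm (Fin d)) (s : Fin d → ℤˣ) (z : E d), μ (gE σ s z) = μ z := by
    intro σ s z
    apply le_antisymm (eden_le hμ σ s z)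
    have := eden_le hμ σ.symm (fun i => s (σ.symm i)) (gE σ s z)
    rwa [gE_inv] at this
  refine ⟨hμ.1, fun σ z => ?_, fun s z => ?_⟩
  · rw [← key σ (fun _ => 1) z]
    congr 1
    ext i
    simp [gE]
  · rw [← key (Equiv.refl _) s z]
    congr 1

end Pool.Agent.MP_41ff67_pr
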