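import Pool.Agent.MP_41ff67_pr.DimOne

set_option autoImplicit false

open MeasureTheory ProbabilityTheory Filter Metric
open scoped ENNReal NNReal Topology Pointwise RealInnerProductSpace

namespace Pool.Agent.MP_41ff67_pr

variable {d : ℕ}

lemma gauge_convex (i₀ : Fin d) : Convex ℝ {z : E d | gauge' i₀ z ≤ 1} := by
  intro x hx y hy a b ha hb hab
  simp only [Set.mem_ofPred_eq] at hx hy ⊢
  have h : gauge' i₀ (a • x + b • y) ≤ a * gauge' i₀ x + b * gauge' i₀ y := by
    unfold gauge'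
    rw [Finset.mul_sum, Finset.mul_sum, ← Finset.sum_add_distrib]
    refine Finset.sum_le_sum fun i _ => ?_
    have h1 : |(a • x + b • y) i| ≤ a * |x i| + b * |y i| := by
      simp only [PiLp.add_apply, PiLp.smul_apply, smul_eq_mul]
      refine (abs_add_le _ _).trans ?_
      rw [abs_mul, abs_mul, abs_of_nonneg ha, abs_of_nonneg hb]
    have h2 := mul_le_mul_of_nonneg_left h1 (cw_pos i₀ i).le
    linarith
  nlinarith [mul_le_mul_of_nonneg_left hx ha, mul_le_mul_of_nonneg_left hy hb]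

theorem final_neg (hd : 2 ≤ d) : ∃ K : Set (E d), IsAdmissible K ∧ Convex ℝ K ∧
    ∀ μ : Seminorm ℝ (E d), IsEdenNorm μ ∨ IsSymmetricNorm μ →
      ∀ α : ℝ, α < 1 → ∀ f : E d → ℝ, IsWeight α f → weightedShape μ f ≠ K := by
  refine ⟨{z | gauge' (⟨0, by omega⟩ : Fin d) z ≤ 1}, gauge_admissible _, gauge_convex _, ?_⟩
  intro μ hμ α hα f hf
  have hμ' : IsSymmetricNorm μ := hμ.elim eden_symmetric id
  exact not_shape hd hμ' hα hf

end Pool.Agent.MP_41ff67_pr
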