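import Pool.Agent.MP_41ff67_pr.Defs

set_option autoImplicit false

open MeasureTheory ProbabilityTheory Filter Metric
open scoped ENNReal NNReal Topology Pointwise RealInnerProductSpace

namespace Pool.Agent.MP_41ff67_pr

variable {d : ℕ} {μ : Seminorm ℝ (E d)} {f : E d → ℝ}

lemma endPt_nil (z : E d) : endPt z [] = z := rfl

lemma endPt_cons (z : E d) (s : ℝ × E d) (L : List (ℝ × E d)) :
    endPt z (s :: L) = endPt (z + s.1 • s.2) L := rfl

lemma pathCost_nil (z : E d) : pathCost f z [] = 0 := rfl

lemma pathCost_cons (z : E d) (s : ℝ × E d) (L : List (ℝ × E d)) :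
    pathCost f z (s :: L) =
      (∫⁻ t in Set.Icc 0 s.1, ENNReal.ofReal (1 / f (z + t • s.2))) +
        pathCost f (z + s.1 • s.2) L := rfl

lemma endPt_append (z : E d) (L L' : List (ℝ × E d)) :
    endPt z (L ++ L') = endPt (endPt z L) L' := by
  induction L generalizing z with
  | nil => rfl
  | cons s L ih => rw [List.cons_append, endPt_cons, ih, endPt_cons]

lemma pathCost_append (z : E d) (L L' : List (ℝ × E d)) :
    pathCost f z (L ++ L') = pathCost f z L + pathCost f (endPt z L) L' := by
  induction L generalizing z with
  | nil => simp [pathCost_nil, endPt_nil]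
  | cons s L ih => rw [List.cons_append, pathCost_cons, ih, pathCost_cons, endPt_cons, add_assoc]

lemma unitSpeed_append {L L' : List (ℝ × E d)} (h : UnitSpeed μ L) (h' : UnitSpeed μ L') :
    UnitSpeed μ (L ++ L') := by
  intro s hs
  rcases List.mem_append.1 hs with hs | hs
  · exact h s hs
  · exact h' s hs

lemma weightedDist_le_pathCost {z w : E d} (L : List (ℝ × E d)) (h : UnitSpeed μ L)
    (h' : endPt z L = w) : weightedDist μ f z w ≤ pathCost f z L :=
  iInf₂_le L ⟨h, h'⟩

lemma weightedDist_triangle (z w y : E d) :
    weightedDist μ f z y ≤ weightedDist μ f z w + weightedDist μ f w y := by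
  unfold weightedDist
  rw [ENNReal.iInf_add]
  refine le_iInf fun L => ?_
  rw [ENNReal.iInf_add]
  refine le_iInf fun hL => ?_
  rw [ENNReal.add_iInf]
  refine le_iInf fun L' => ?_
  rw [ENNReal.add_iInf]
  refine le_iInf fun hL' => ?_
  have hend : endPt z (L ++ L') = y := by rw [endPt_append, hL.2, hL'.2]
  refine (iInf₂_le (L ++ L') ⟨unitSpeed_append hL.1 hL'.1, hend⟩).trans ?_
  rw [pathCost_append, hL.2]

lemma weightedDist_segment (z v : E d) (t : ℝ) (ht : 0 ≤ t) (hv : μ v = 1) :
    weightedDist μ f z (z + t • v) ≤
      ∫⁻ s in Set.Icc 0 t, ENNReal.ofReal (1 / f (z + s • v)) := by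
  refine (weightedDist_le_pathCost (L := [(t, v)]) ?_ rfl).trans ?_
  · intro s hs
    rw [List.mem_singleton] at hs
    subst hs
    exact ⟨ht, hv⟩
  · simp [pathCost_cons, pathCost_nil]

/-- Lower bound for the cost of a piece of segment. -/
lemma seg_lower (z v : E d) (a b κ : ℝ) (hab : a ≤ b)
    (h : ∀ s ∈ Set.Icc a b, κ ≤ 1 / f (z + s • v)) :
    ENNReal.ofReal (κ * (b - a)) ≤
      ∫⁻ s in Set.Icc a b, ENNReal.ofReal (1 / f (z + s • v)) := by
  calc ENNReal.ofReal (κ * (b - a)) = ∫⁻ _ in Set.Icc a b, ENNReal.ofReal κ := by
        rw [setLIntegral_const, Real.volume_Icc, ENNReal.ofReal_mul' (by linarith)]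
    _ ≤ _ := by
        refine setLIntegral_mono' measurableSet_Icc fun s hs => ?_
        exact ENNReal.ofReal_le_ofReal (h s hs)

/-- Last exit decomposition: a path ending at the centre `p` of a closed ball on which
`1 / f ≥ κ` either starts in the ball and costs at least `κ μ(p - z)`, or passes through a point
`w` of the sphere and costs at least `D(z, w) + κ μ(p - w)`. -/
lemma last_exit (p : E d) (r κ : ℝ) (hr : 0 < r) (hκ : 0 ≤ κ)
    (hf : ∀ y ∈ closedBall p r, κ ≤ 1 / f y) (L : List (ℝ × E d)) :
    ∀ z : E d, UnitSpeed μ L → endPt z L = p →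
      (z ∈ closedBall p r ∧ ENNReal.ofReal (κ * μ (p - z)) ≤ pathCost f z L) ∨
      (∃ w ∈ sphere p r, weightedDist μ f z w + ENNReal.ofReal (κ * μ (p - w)) ≤
        pathCost f z L) := by
  induction L with
  | nil =>
    intro z _ hz
    left
    rw [endPt_nil] at hz
    subst hz
    simp [hr.le]
  | cons s L ih =>
    intro z hL hz
    obtain ⟨t, v⟩ := s
    have hs : 0 ≤ t ∧ μ v = 1 := hL (t, v) (List.mem_cons_self ..)
    have hL' : UnitSpeed μ L := fun s hs => hL s (List.mem_cons_of_mem _ hs)
    rw [endPt_cons] at hz
    simp only at hz
    rw [pathCost_cons]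
    simp only
    rcases ih (z + t • v) hL' hz with ⟨hin, hc⟩ | ⟨w, hw, hc⟩
    · by_cases hzb : z ∈ closedBall p r
      · left
        refine ⟨hzb, ?_⟩
        have hseg : ∀ s ∈ Set.Icc 0 t, κ ≤ 1 / f (z + s • v) := by
          intro s hs'
          apply hf
          have hconv := convex_closedBall p r
          rcases eq_or_lt_of_le hs.1 with h0 | h0
          · have : s = 0 := le_antisymm (h0 ▸ hs'.2) hs'.1
            rw [this, zero_smul, add_zero]
            exact hzb
          · have h1 : z + s • v = (1 - s / t) • z + (s / t) • (z + t • v) := by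
              rw [smul_add, smul_smul, div_mul_cancel₀ _ h0.ne']
              module
            rw [h1]
            exact hconv hzb hin (by rw [sub_nonneg, div_le_one h0]; exact hs'.2)
              (div_nonneg hs'.1 hs.1) (by ring)
        have h1 := seg_lower (f := f) z v 0 t κ hs.1 hseg
        calc ENNReal.ofReal (κ * μ (p - z))
            ≤ ENNReal.ofReal (κ * (t - 0) + κ * μ (p - (z + t • v))) := by
              apply ENNReal.ofReal_le_ofReal
              rw [← mul_add]
              apply mul_le_mul_of_nonneg_left _ hκ
              calc μ (p - z) = μ (t • v + (p - (z + t • v))) := by congr 1; module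
                _ ≤ μ (t • v) + μ (p - (z + t • v)) := map_add_le_add μ _ _
                _ = t - 0 + μ (p - (z + t • v)) := by
                  rw [map_smul_eq_mul, hs.2, Real.norm_eq_abs, abs_of_nonneg hs.1]; ring
          _ = ENNReal.ofReal (κ * (t - 0)) + ENNReal.ofReal (κ * μ (p - (z + t • v))) := by
              rw [ENNReal.ofReal_add]
              · exact mul_nonneg hκ (by linarith [hs.1])
              · exact mul_nonneg hκ (apply_nonneg _ _)
          _ ≤ _ := add_le_add h1 hc
      · right
        -- the segment crosses the sphere
        have hdz : r < dist z p := by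
          rw [mem_closedBall] at hzb
          push Not at hzb
          exact hzb
        have hdz' : dist (z + t • v) p ≤ r := by
          rw [mem_closedBall] at hin
          exact hin
        have hcont : ContinuousOn (fun s : ℝ => dist (z + s • v) p) (Set.Icc 0 t) := by
          fun_prop
        have hivt := intermediate_value_Icc' hs.1 hcont
        have hmem : r ∈ Set.Icc (dist (z + t • v) p) (dist (z + (0 : ℝ) • v) p) := by
          rw [zero_smul, add_zero]
          exact ⟨hdz', hdz.le⟩
        obtain ⟨s, hs', hsr⟩ := hivt hmem
        simp only at hsr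
        refine ⟨z + s • v, ?_, ?_⟩
        · rw [mem_sphere]; exact hsr
        · have hwin : z + s • v ∈ closedBall p r := by rw [mem_closedBall]; exact hsr.le
          have hseg : ∀ u ∈ Set.Icc s t, κ ≤ 1 / f (z + u • v) := by
            intro u hu
            apply hf
            have hconv := convex_closedBall p r
            rcases eq_or_lt_of_le hs'.2 with h0 | h0
            · have : u = s := le_antisymm (h0 ▸ hu.2) hu.1
              rw [this]
              exact hwin
            · have h1 : z + u • v = (1 - (u - s) / (t - s)) • (z + s • v) +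
                  ((u - s) / (t - s)) • (z + t • v) := by
                have h2 : t - s ≠ 0 := by linarith
                have h3 : u = (1 - (u - s) / (t - s)) * s + (u - s) / (t - s) * t := by
                  field_simp
                  ring
                have h4 : (1 - (u - s) / (t - s)) • (z + s • v) +
                  ((u - s) / (t - s)) • (z + t • v) =
                    z + ((1 - (u - s) / (t - s)) * s + (u - s) / (t - s) * t) • v := by
                  module
                rw [h4, ← h3]
              rw [h1]
              exact hconv hwin hin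
                (by rw [sub_nonneg, div_le_one (by linarith)]; linarith [hu.2])
                (div_nonneg (by linarith [hu.1]) (by linarith)) (by ring)
          have h1 := seg_lower (f := f) z v s t κ hs'.2 hseg
          have hfirst := weightedDist_segment (μ := μ) (f := f) z v s hs'.1 hs.2
          have hsplit : (∫⁻ u in Set.Icc 0 s, ENNReal.ofReal (1 / f (z + u • v))) +
              (∫⁻ u in Set.Icc s t, ENNReal.ofReal (1 / f (z + u • v))) ≤
              ∫⁻ u in Set.Icc 0 t, ENNReal.ofReal (1 / f (z + u • v)) := by
            have e1 : ∫⁻ u in Set.Icc s t, ENNReal.ofReal (1 / f (z + u • v)) =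
                ∫⁻ u in Set.Ioc s t, ENNReal.ofReal (1 / f (z + u • v)) :=
              setLIntegral_congr Ioc_ae_eq_Icc.symm
            rw [e1, ← lintegral_union measurableSet_Ioc]
            · apply lintegral_mono_set
              intro u hu
              rcases hu with hu | hu
              · exact ⟨hu.1, hu.2.trans hs'.2⟩
              · exact ⟨hs'.1.trans hu.1.le, hu.2⟩
            · rw [Set.disjoint_left]
              intro u hu hu'
              exact absurd hu.2 (not_le.2 hu'.1)
          have h2 : ENNReal.ofReal (κ * μ (p - (z + s • v))) ≤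
              ENNReal.ofReal (κ * (t - s)) + ENNReal.ofReal (κ * μ (p - (z + t • v))) := by
            rw [← ENNReal.ofReal_add (mul_nonneg hκ (by linarith [hs'.2]))
              (mul_nonneg hκ (apply_nonneg _ _))]
            apply ENNReal.ofReal_le_ofReal
            rw [← mul_add]
            apply mul_le_mul_of_nonneg_left _ hκ
            calc μ (p - (z + s • v)) = μ ((t - s) • v + (p - (z + t • v))) := by congr 1; module
              _ ≤ μ ((t - s) • v) + μ (p - (z + t • v)) := map_add_le_add μ _ _
              _ = t - s + μ (p - (z + t • v)) := by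
                rw [map_smul_eq_mul, hs.2, Real.norm_eq_abs,
                  abs_of_nonneg (by linarith [hs'.2])]; ring
          calc weightedDist μ f z (z + s • v) + ENNReal.ofReal (κ * μ (p - (z + s • v)))
              ≤ (∫⁻ u in Set.Icc 0 s, ENNReal.ofReal (1 / f (z + u • v))) +
                (ENNReal.ofReal (κ * (t - s)) +
                  ENNReal.ofReal (κ * μ (p - (z + t • v)))) := add_le_add hfirst h2
            _ ≤ (∫⁻ u in Set.Icc 0 s, ENNReal.ofReal (1 / f (z + u • v))) +
                ((∫⁻ u in Set.Icc s t, ENNReal.ofReal (1 / f (z + u • v))) +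
                  pathCost f (z + t • v) L) := by gcongr
            _ = ((∫⁻ u in Set.Icc 0 s, ENNReal.ofReal (1 / f (z + u • v))) +
                (∫⁻ u in Set.Icc s t, ENNReal.ofReal (1 / f (z + u • v)))) +
                  pathCost f (z + t • v) L := by rw [add_assoc]
            _ ≤ _ := by gcongr
    · right
      refine ⟨w, hw, ?_⟩
      calc weightedDist μ f z w + ENNReal.ofReal (κ * μ (p - w))
          ≤ (weightedDist μ f z (z + t • v) + weightedDist μ f (z + t • v) w) +
            ENNReal.ofReal (κ * μ (p - w)) := by
            gcongr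
            exact weightedDist_triangle _ _ _
        _ ≤ ((∫⁻ u in Set.Icc 0 t, ENNReal.ofReal (1 / f (z + u • v))) +
              weightedDist μ f (z + t • v) w) + ENNReal.ofReal (κ * μ (p - w)) := by
            gcongr
            exact weightedDist_segment z v t hs.1 hs.2
        _ = (∫⁻ u in Set.Icc 0 t, ENNReal.ofReal (1 / f (z + u • v))) +
              (weightedDist μ f (z + t • v) w + ENNReal.ofReal (κ * μ (p - w))) := by
            rw [add_assoc]
        _ ≤ _ := by gcongr

end Pool.Agent.MP_41ff67_pr
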