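import Pool.Agent.MP_41ff67_pr.Path

set_option autoImplicit false

open MeasureTheory ProbabilityTheory Filter Metric
open scoped ENNReal NNReal Topology Pointwise RealInnerProductSpace

namespace Pool.Agent.MP_41ff67_pr

variable {d : ℕ} {μ : Seminorm ℝ (E d)} {f : E d → ℝ}

lemma weight_smul {α : ℝ} (hf : IsWeight α f) (c : ℝ) (hc : 0 < c) (z : E d) (hz : z ≠ 0) :
    f (c • z) = c ^ α * f z := by
  obtain ⟨f₀, _, _, h⟩ := hf
  have hcz : c • z ≠ 0 := smul_ne_zero hc.ne' hz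
  rw [h _ hcz, h _ hz, norm_smul, Real.norm_eq_abs, abs_of_pos hc,
    Real.mul_rpow hc.le (norm_nonneg z), mul_assoc]
  congr 3
  rw [smul_smul, mul_inv, mul_assoc, mul_comm ‖z‖⁻¹ c, ← mul_assoc, inv_mul_cancel₀ hc.ne',
    one_mul]

lemma weight_pos {α : ℝ} (hf : IsWeight α f) (z : E d) (hz : z ≠ 0) : 0 < f z := by
  obtain ⟨f₀, h0, _, h⟩ := hf
  rw [h z hz]
  have hzn : 0 < ‖z‖ := norm_pos_iff.2 hz
  refine mul_pos (Real.rpow_pos_of_pos hzn _) (h0 _ ?_)
  rw [mem_sphere_zero_iff_norm, norm_smul, norm_inv, norm_norm, inv_mul_cancel₀ hzn.ne']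

lemma weight_continuousAt {α : ℝ} (hf : IsWeight α f) (z : E d) (hz : z ≠ 0) :
    ContinuousAt f z := by
  obtain ⟨f₀, h0, ⟨C, hC⟩, h⟩ := hf
  have hev : f =ᶠ[𝓝 z] fun y => ‖y‖ ^ α * f₀ (‖y‖⁻¹ • y) := by
    filter_upwards [isOpen_ne.mem_nhds hz] with y hy
    exact h y hy
  refine ContinuousAt.congr ?_ hev.symm
  have hzn : ‖z‖ ≠ 0 := norm_ne_zero_iff.2 hz
  refine ContinuousAt.mul ?_ ?_
  · exact (continuous_norm.continuousAt).rpow_const (Or.inl hzn)
  · have hproj : ContinuousAt (fun y : E d => ‖y‖⁻¹ • y) z :=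
      (continuous_norm.continuousAt.inv₀ hzn).smul continuousAt_id
    have hmem : ∀ᶠ y in 𝓝 z, ‖y‖⁻¹ • y ∈ sphere (0 : E d) 1 := by
      filter_upwards [isOpen_ne.mem_nhds hz] with y hy
      have : ‖y‖ ≠ 0 := norm_ne_zero_iff.2 hy
      rw [mem_sphere_zero_iff_norm, norm_smul, norm_inv, norm_norm, inv_mul_cancel₀ this]
    have hcw : ContinuousWithinAt f₀ (sphere (0 : E d) 1) (‖z‖⁻¹ • z) :=
      hC.continuousOn _ (hmem.self_of_nhds)
    exact hcw.tendsto.comp (tendsto_nhdsWithin_iff.2 ⟨hproj, hmem⟩)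

lemma lintegral_Icc_scale (F : ℝ → ℝ≥0∞) (c a : ℝ) (hc : 0 < c) :
    ∫⁻ t in Set.Icc 0 (c * a), F t = ENNReal.ofReal c * ∫⁻ s in Set.Icc 0 a, F (c * s) := by
  have hme : MeasurableEmbedding (fun s : ℝ => c * s) :=
    (Homeomorph.mulLeft₀ c hc.ne').measurableEmbedding
  have h1 := Real.smul_map_volume_mul_left (a := c) hc.ne'
  rw [abs_of_pos hc] at h1
  have hpre : (fun s : ℝ => c * s) ⁻¹' Set.Icc 0 (c * a) = Set.Icc 0 a := by
    ext s
    simp only [Set.mem_preimage, Set.mem_Icc]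
    constructor
    · rintro ⟨h2, h3⟩
      exact ⟨nonneg_of_mul_nonneg_right h2 hc, le_of_mul_le_mul_left h3 hc⟩
    · rintro ⟨h2, h3⟩
      exact ⟨mul_nonneg hc.le h2, mul_le_mul_of_nonneg_left h3 hc.le⟩
  calc ∫⁻ t in Set.Icc 0 (c * a), F t
      = ∫⁻ t in Set.Icc 0 (c * a), F t ∂(ENNReal.ofReal c • Measure.map (c * ·) volume) := by
        rw [h1]
    _ = ENNReal.ofReal c * ∫⁻ t in Set.Icc 0 (c * a), F t ∂(Measure.map (c * ·) volume) := by
        rw [Measure.restrict_smul, lintegral_smul_measure]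
        rfl
    _ = _ := by
        rw [hme.restrict_map, hme.lintegral_map, hpre]

lemma seg_zero_null (z v : E d) (hv : v ≠ 0) : ∀ᵐ s : ℝ, z + s • v ≠ 0 := by
  have hsub : {s : ℝ | z + s • v = 0}.Subsingleton := by
    intro s hs t ht
    simp only [Set.mem_ofPred_eq] at hs ht
    have h : (s - t) • v = 0 := by
      have : (s - t) • v = (z + s • v) - (z + t • v) := by module
      rw [this, hs, ht, sub_zero]
    rcases smul_eq_zero.1 h with h | h
    · linarith
    · exact absurd h hv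
  have := hsub.measure_zero volume
  rw [ae_iff]
  simpa using this

lemma seg_scale {α : ℝ} (hf : IsWeight α f) (c : ℝ) (hc : 0 < c) (z v : E d) (hv : v ≠ 0)
    (a : ℝ) :
    ∫⁻ t in Set.Icc 0 (c * a), ENNReal.ofReal (1 / f (c • z + t • v)) =
      ENNReal.ofReal (c ^ (1 - α)) *
        ∫⁻ t in Set.Icc 0 a, ENNReal.ofReal (1 / f (z + t • v)) := by
  rw [lintegral_Icc_scale _ c a hc]
  have h1 : ∫⁻ s in Set.Icc 0 a, ENNReal.ofReal (1 / f (c • z + (c * s) • v)) =
      ∫⁻ s in Set.Icc 0 a, ENNReal.ofReal (c ^ (-α)) * ENNReal.ofReal (1 / f (z + s • v)) := by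
    apply lintegral_congr_ae
    refine ae_restrict_of_ae ?_
    filter_upwards [seg_zero_null z v hv] with s hs
    have h2 : c • z + (c * s) • v = c • (z + s • v) := by rw [smul_add, smul_smul]
    rw [h2, weight_smul hf c hc _ hs, ← ENNReal.ofReal_mul (Real.rpow_nonneg hc.le _)]
    congr 1
    rw [Real.rpow_neg hc.le]
    field_simp
  rw [h1, lintegral_const_mul' _ _ ENNReal.ofReal_ne_top, ← mul_assoc,
    ← ENNReal.ofReal_mul hc.le]
  congr 2
  rw [sub_eq_add_neg, Real.rpow_add hc, Real.rpow_one]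

lemma pathCost_scale {α : ℝ} (hf : IsWeight α f) (c : ℝ) (hc : 0 < c)
    (L : List (ℝ × E d)) : ∀ z : E d, UnitSpeed μ L →
    pathCost f (c • z) (L.map fun s => (c * s.1, s.2)) =
      ENNReal.ofReal (c ^ (1 - α)) * pathCost f z L := by
  induction L with
  | nil => intro z _; simp [pathCost_nil]
  | cons s L ih =>
    intro z hL
    have hs := hL s (List.mem_cons_self ..)
    have hL' : UnitSpeed μ L := fun s hs => hL s (List.mem_cons_of_mem _ hs)
    have hv : s.2 ≠ 0 := by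
      intro h
      rw [h, map_zero] at hs
      exact absurd hs.2 (by norm_num)
    rw [List.map_cons, pathCost_cons, pathCost_cons, mul_add, seg_scale hf c hc z s.2 hv]
    congr 1
    rw [← ih (z + s.1 • s.2) hL']
    congr 1
    simp only
    rw [smul_add, smul_smul]

lemma endPt_scale (c : ℝ) (L : List (ℝ × E d)) : ∀ z : E d,
    endPt (c • z) (L.map fun s => (c * s.1, s.2)) = c • endPt z L := by
  induction L with
  | nil => intro z; rfl
  | cons s L ih =>
    intro z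
    rw [List.map_cons, endPt_cons, endPt_cons, ← ih (z + s.1 • s.2)]
    congr 1
    simp only
    rw [smul_add, smul_smul]

lemma unitSpeed_scale (c : ℝ) (hc : 0 < c) {L : List (ℝ × E d)} (hL : UnitSpeed μ L) :
    UnitSpeed μ (L.map fun s => (c * s.1, s.2)) := by
  intro s hs
  rw [List.mem_map] at hs
  obtain ⟨u, hu, rfl⟩ := hs
  exact ⟨mul_nonneg hc.le (hL u hu).1, (hL u hu).2⟩

/-- If the weighted shape is the unit ball of a positively homogeneous gauge `ρ`, then `D(0, w)` is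
at least `ρ(w) ^ (1 - α)`. -/
lemma weightedDist_lower {α : ℝ} (hα : α < 1) (hf : IsWeight α f) (ρ : E d → ℝ)
    (hρ : ∀ (c : ℝ) (z : E d), 0 < c → ρ (c • z) = c * ρ z)
    (hK : ∀ z, weightedDist μ f 0 z ≤ 1 → ρ z ≤ 1) (w : E d) (hw : 0 ≤ ρ w) :
    ENNReal.ofReal (ρ w ^ (1 - α)) ≤ weightedDist μ f 0 w := by
  have hβ : 0 < 1 - α := by linarith
  by_contra hcon
  push Not at hcon
  unfold weightedDist at hcon
  rw [iInf_lt_iff] at hcon
  obtain ⟨L, hL⟩ := hcon
  rw [iInf_lt_iff] at hL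
  obtain ⟨⟨hU, hend⟩, hcost⟩ := hL
  obtain ⟨C', hC1, hC2⟩ := exists_between hcost
  have hC't : C' ≠ ⊤ := (hC2.trans_le le_top).ne
  set C := C'.toReal with hCdef
  have hC'eq : C' = ENNReal.ofReal C := (ENNReal.ofReal_toReal hC't).symm
  have hCpos : 0 < C := by
    rw [hCdef]
    exact ENNReal.toReal_pos (hC1.trans_le' (zero_le)).ne' hC't
  have hClt : C < ρ w ^ (1 - α) := by
    rw [hC'eq] at hC2
    exact (ENNReal.ofReal_lt_ofReal_iff_of_nonneg hCpos.le).1 hC2
  set c : ℝ := C ^ (-(1 / (1 - α))) with hcdef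
  have hc : 0 < c := Real.rpow_pos_of_pos hCpos _
  have hcβ : c ^ (1 - α) = C⁻¹ := by
    rw [hcdef, ← Real.rpow_mul hCpos.le, neg_mul, one_div, inv_mul_cancel₀ hβ.ne',
      Real.rpow_neg_one]
  have hle : weightedDist μ f 0 (c • w) ≤ 1 := by
    refine (weightedDist_le_pathCost (L := L.map fun s => (c * s.1, s.2))
      (unitSpeed_scale c hc hU) ?_).trans ?_
    · have := endPt_scale c L 0
      rw [smul_zero] at this
      rw [this, hend]
    · have := pathCost_scale hf c hc L 0 hU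
      rw [smul_zero] at this
      rw [this, hcβ]
      calc ENNReal.ofReal C⁻¹ * pathCost f 0 L ≤ ENNReal.ofReal C⁻¹ * C' := by gcongr
        _ = 1 := by
          rw [hC'eq, ← ENNReal.ofReal_mul (inv_nonneg.2 hCpos.le), inv_mul_cancel₀ hCpos.ne',
            ENNReal.ofReal_one]
  have h1 := hK _ hle
  rw [hρ c w hc] at h1
  have h2 : (c * ρ w) ^ (1 - α) ≤ 1 := Real.rpow_le_one (mul_nonneg hc.le hw) h1 hβ.le
  rw [Real.mul_rpow hc.le hw, hcβ] at h2
  have h3 : ρ w ^ (1 - α) ≤ C := by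
    calc ρ w ^ (1 - α) = C * (C⁻¹ * ρ w ^ (1 - α)) := by
          rw [← mul_assoc, mul_inv_cancel₀ hCpos.ne', one_mul]
      _ ≤ C * 1 := by gcongr
      _ = C := mul_one C
  linarith

end Pool.Agent.MP_41ff67_pr
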