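import Pool.Agent.MP_41ff67_pr.Corner

set_option autoImplicit false

open MeasureTheory ProbabilityTheory Filter Metric
open scoped ENNReal NNReal Topology Pointwise RealInnerProductSpace

namespace Pool.Agent.MP_41ff67_pr

variable {d : ℕ}

lemma gauge_continuous (i₀ : Fin d) : Continuous (gauge' i₀) := by
  unfold gauge'
  fun_prop

lemma gauge_zero (i₀ : Fin d) : gauge' i₀ (0 : E d) = 0 := by
  simp [gauge']

lemma gauge_pos (i₀ : Fin d) (z : E d) (hz : z ≠ 0) : 0 < gauge' i₀ z := by
  by_contra h
  push Not at h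
  apply hz
  ext i
  have := (abs_le_gauge i₀ z i).trans h
  simpa using this

lemma frontier_gauge (i₀ : Fin d) :
    frontier {z : E d | gauge' i₀ z ≤ 1} = {z | gauge' i₀ z = 1} := by
  apply Set.Subset.antisymm
  · exact frontier_le_subset_eq (gauge_continuous i₀) continuous_const
  · intro z hz
    simp only [Set.mem_ofPred_eq] at hz
    refine ⟨subset_closure (show gauge' i₀ z ≤ 1 from hz.le), ?_⟩
    intro hint
    rw [mem_interior_iff_mem_nhds] at hint
    have hc : ContinuousAt (fun t : ℝ => t • z) 1 := by fun_prop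
    have h1 : ∀ᶠ t : ℝ in 𝓝 1, t • z ∈ {z : E d | gauge' i₀ z ≤ 1} := by
      apply hc.eventually
      simp only [one_smul]
      exact hint
    obtain ⟨r, hr, hball⟩ := Metric.eventually_nhds_iff.1 h1
    have h2 : dist (1 + r / 2) 1 < r := by
      rw [Real.dist_eq, add_sub_cancel_left, abs_of_pos (by linarith)]
      linarith
    have h3 := hball h2
    simp only [Set.mem_ofPred_eq] at h3
    rw [gauge_smul i₀ _ z (by linarith), hz] at h3
    linarith

lemma gauge_admissible (i₀ : Fin d) : IsAdmissible {z : E d | gauge' i₀ z ≤ 1} where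
  compact := by
    apply Metric.isCompact_of_isClosed_isBounded
    · exact isClosed_le (gauge_continuous i₀) continuous_const
    · rw [isBounded_iff_forall_norm_le]
      refine ⟨Real.sqrt d, fun z hz => ?_⟩
      rw [EuclideanSpace.norm_eq]
      apply Real.sqrt_le_sqrt
      calc ∑ i, ‖z i‖ ^ 2 ≤ ∑ _i : Fin d, (1 : ℝ) := by
            refine Finset.sum_le_sum fun i _ => ?_
            have h1 : ‖z i‖ ≤ 1 := (abs_le_gauge i₀ z i).trans hz
            exact pow_le_one₀ (norm_nonneg _) h1
        _ = d := by simp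
  lipschitz := by
    intro x hx
    rw [frontier_gauge] at hx
    simp only [Set.mem_ofPred_eq] at hx
    obtain ⟨i, hi⟩ : ∃ i, x i ≠ 0 := by
      by_contra hcon
      push Not at hcon
      have : x = 0 := by ext i; simpa using hcon i
      rw [this, gauge_zero] at hx
      exact absurd hx (by norm_num)
    obtain ⟨s, hs1, hs⟩ : ∃ s : ℝ, |s| = 1 ∧ (x i < 0 → s = -1) ∧ (0 < x i → s = 1) := by
      rcases lt_or_gt_of_ne hi with h | h
      · exact ⟨-1, by simp, fun _ => rfl, fun h' => absurd h (not_lt.2 h'.le)⟩
      · exact ⟨1, by simp, fun h' => absurd h (not_lt.2 h'.le), fun _ => rfl⟩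
    have hci := cw_pos i₀ i
    refine ⟨s • EuclideanSpace.single i (1 : ℝ),
      fun y => (1 - ∑ j ∈ Finset.univ.erase i, cw i₀ j * |y j|) / cw i₀ i, 2 * d, |x i|, ?_,
      abs_pos.2 hi, ?_, ?_, ?_⟩
    · rw [norm_smul, Real.norm_eq_abs, hs1]; simp
    · refine LipschitzWith.of_dist_le_mul fun y y' => ?_
      rw [Real.dist_eq, ← sub_div, abs_div, abs_of_pos hci]
      have h1 : (1 - ∑ j ∈ Finset.univ.erase i, cw i₀ j * |y j|) -
          (1 - ∑ j ∈ Finset.univ.erase i, cw i₀ j * |y' j|) =
          ∑ j ∈ Finset.univ.erase i, cw i₀ j * (|y' j| - |y j|) := by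
        simp only [mul_sub, Finset.sum_sub_distrib]; ring
      rw [h1]
      calc |∑ j ∈ Finset.univ.erase i, cw i₀ j * (|y' j| - |y j|)| / cw i₀ i
          ≤ |∑ j ∈ Finset.univ.erase i, cw i₀ j * (|y' j| - |y j|)| / 1 := by
            gcongr
            exact cw_ge_one i₀ i
        _ = |∑ j ∈ Finset.univ.erase i, cw i₀ j * (|y' j| - |y j|)| := by rw [div_one]
        _ ≤ ∑ j ∈ Finset.univ.erase i, |cw i₀ j * (|y' j| - |y j|)| :=
            Finset.abs_sum_le_sum_abs _ _
        _ ≤ ∑ _j ∈ Finset.univ.erase i, 2 * dist y y' := by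
            refine Finset.sum_le_sum fun j _ => ?_
            rw [abs_mul, abs_of_pos (cw_pos i₀ j)]
            have h2 : |(|y' j| - |y j|)| ≤ dist y y' := by
              calc |(|y' j| - |y j|)| ≤ |y' j - y j| := abs_abs_sub_abs_le _ _
                _ = ‖(y - y') j‖ := by rw [PiLp.sub_apply, Real.norm_eq_abs, abs_sub_comm]
                _ ≤ ‖y - y'‖ := PiLp.norm_apply_le _ j
                _ = dist y y' := (dist_eq_norm _ _).symm
            exact mul_le_mul (cw_le_two i₀ j) h2 (abs_nonneg _) (by norm_num)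
        _ ≤ ∑ _j : Fin d, 2 * dist y y' := by
            apply Finset.sum_le_univ_sum_of_nonneg
            intro j; positivity
        _ = ((2 * d : ℝ≥0) : ℝ) * dist y y' := by
            simp; ring
    · intro y t
      simp only
      congr 2
      refine Finset.sum_congr rfl fun j hj => ?_
      have hji : j ≠ i := Finset.ne_of_mem_erase hj
      simp [hji]
    · intro y hy
      rw [mem_ball, dist_eq_norm] at hy
      have h1 : |y i - x i| < |x i| := by
        calc |y i - x i| = ‖(y - x) i‖ := by rw [PiLp.sub_apply, Real.norm_eq_abs]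
          _ ≤ ‖y - x‖ := PiLp.norm_apply_le _ i
          _ < |x i| := hy
      have h2 : |y i| = s * y i := by
        rcases lt_or_gt_of_ne hi with h | h
        · rw [hs.1 h]
          rw [abs_of_neg h] at h1
          have := abs_lt.1 h1
          have hy0 : y i < 0 := by linarith
          rw [abs_of_neg hy0]; simp
        · rw [hs.2 h]
          rw [abs_of_pos h] at h1
          have := abs_lt.1 h1
          have hy0 : 0 < y i := by linarith
          rw [abs_of_pos hy0]; simp
      have h3 : ⟪s • EuclideanSpace.single i (1 : ℝ), y⟫ = s * y i := by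
        rw [real_inner_smul_left, EuclideanSpace.inner_single_left]
        simp
      rw [h3, ← h2, le_div_iff₀ hci]
      simp only [Set.mem_ofPred_eq]
      unfold gauge'
      rw [← Finset.add_sum_erase Finset.univ (fun j => cw i₀ j * |y j|) (Finset.mem_univ i)]
      constructor
      · intro h; linarith
      · intro h; linarith
  nhds := by
    have h1 : {z : E d | gauge' i₀ z < 1} ∈ 𝓝 (0 : E d) := by
      apply (isOpen_lt (gauge_continuous i₀) continuous_const).mem_nhds
      simp [gauge_zero]
    filter_upwards [h1] with z hz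
    exact le_of_lt hz
  rays := by
    intro θ hθ
    have hg := gauge_pos i₀ θ hθ
    rw [frontier_gauge]
    refine ⟨(gauge' i₀ θ)⁻¹, ⟨by positivity, ?_⟩, ?_⟩
    · simp only [Set.mem_ofPred_eq]
      rw [gauge_smul i₀ _ θ (by positivity), inv_mul_cancel₀ hg.ne']
    · rintro t ⟨ht0, ht⟩
      simp only [Set.mem_ofPred_eq] at ht
      rcases eq_or_lt_of_le ht0 with h | h
      · rw [← h, zero_smul, gauge_zero] at ht
        exact absurd ht (by norm_num)
      · rw [gauge_smul i₀ _ θ h] at ht
        exact eq_inv_of_mul_eq_one_left ht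

end Pool.Agent.MP_41ff67_pr
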