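import Pool.Agent.MP_41ff67_pr.Shape

set_option autoImplicit false

open MeasureTheory ProbabilityTheory Filter Metric
open scoped ENNReal NNReal Topology Pointwise RealInnerProductSpace

namespace Pool.Agent.MP_41ff67_pr

variable {d : ℕ}

/-! ### Consequences of symmetry -/

lemma seminorm_le (μ : Seminorm ℝ (E d)) (z : E d) :
    μ z ≤ (∑ i, μ (EuclideanSpace.single i (1 : ℝ))) * ‖z‖ := by
  have h1 : z = ∑ i, z i • EuclideanSpace.single i (1 : ℝ) := by
    have := (EuclideanSpace.basisFun (Fin d) ℝ).sum_repr z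
    simpa using this.symm
  calc μ z = μ (∑ i, z i • EuclideanSpace.single i (1 : ℝ)) := by rw [← h1]
    _ ≤ ∑ i, μ (z i • EuclideanSpace.single i (1 : ℝ)) :=
        Finset.le_sum_of_subadditive μ (map_zero μ).le (map_add_le_add μ) _ _
    _ = ∑ i, |z i| * μ (EuclideanSpace.single i (1 : ℝ)) := by
        simp only [map_smul_eq_mul, Real.norm_eq_abs]
    _ ≤ ∑ i, ‖z‖ * μ (EuclideanSpace.single i (1 : ℝ)) := by
        refine Finset.sum_le_sum fun i _ => ?_
        exact mul_le_mul_of_nonneg_right (PiLp.norm_apply_le z i) (apply_nonneg _ _)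
    _ = _ := by rw [Finset.sum_mul]; exact Finset.sum_congr rfl fun i _ => mul_comm _ _

lemma seminorm_continuous (μ : Seminorm ℝ (E d)) : Continuous μ := by
  set C : ℝ := ∑ i, μ (EuclideanSpace.single i (1 : ℝ)) with hC
  have hC0 : 0 ≤ C := Finset.sum_nonneg fun i _ => apply_nonneg _ _
  have : LipschitzWith ⟨C, hC0⟩ μ := by
    refine LipschitzWith.of_dist_le_mul fun z w => ?_
    rw [Real.dist_eq, dist_eq_norm]
    exact (abs_sub_map_le_sub μ z w).trans (seminorm_le μ (z - w))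
  exact this.continuous

variable {μ : Seminorm ℝ (E d)}

lemma symm_single (hμ : IsSymmetricNorm μ) (i j : Fin d) :
    μ (EuclideanSpace.single i (1 : ℝ)) = μ (EuclideanSpace.single j (1 : ℝ)) := by
  have h := hμ.2.1 (Equiv.swap i j) (EuclideanSpace.single i (1 : ℝ))
  rw [← h]
  congr 1
  ext k
  simp only [PiLp.single_apply]
  by_cases hk : k = j
  · subst hk; simp
  · rw [if_neg hk, if_neg]
    intro h'
    apply hk
    have : Equiv.swap i j (Equiv.swap i j k) = Equiv.swap i j i := by rw [h']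
    simpa using this

lemma symm_proj (hμ : IsSymmetricNorm μ) (i : Fin d) (v : E d) :
    |v i| * μ (EuclideanSpace.single i (1 : ℝ)) ≤ μ v := by
  have h := hμ.2.2 (fun k => if k = i then 1 else -1) v
  have h1 : (2 : ℝ) * (|v i| * μ (EuclideanSpace.single i (1 : ℝ))) ≤ μ v + μ v := by
    calc (2 : ℝ) * (|v i| * μ (EuclideanSpace.single i (1 : ℝ)))
        = μ ((2 * v i) • EuclideanSpace.single i (1 : ℝ)) := by
          rw [map_smul_eq_mul, Real.norm_eq_abs, abs_mul, abs_of_pos (show (0 : ℝ) < 2 by norm_num)]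
          ring
      _ = μ (v + (WithLp.toLp 2 fun k =>
            (((if k = i then 1 else -1 : ℤˣ) : ℤ) : ℝ) * v k)) := by
          congr 1
          ext k
          by_cases hk : k = i
          · subst hk; simp; ring
          · simp [hk]
      _ ≤ μ v + μ (WithLp.toLp 2 fun k =>
            (((if k = i then 1 else -1 : ℤˣ) : ℤ) : ℝ) * v k) := map_add_le_add μ _ _
      _ = μ v + μ v := by rw [h]
  linarith

lemma symm_pos (hμ : IsSymmetricNorm μ) (i : Fin d) :
    0 < μ (EuclideanSpace.single i (1 : ℝ)) := by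
  refine lt_of_le_of_ne (apply_nonneg _ _) fun h => ?_
  have h1 := hμ.1 _ h.symm
  have h2 : (EuclideanSpace.single i (1 : ℝ) : E d) i = 0 := by rw [h1]; rfl
  simp at h2

lemma symm_lower (hμ : IsSymmetricNorm μ) (i₀ : Fin d) :
    ∃ c₀ : ℝ, 0 < c₀ ∧ ∀ v : E d, c₀ * ‖v‖ ≤ μ v := by
  set M := μ (EuclideanSpace.single i₀ (1 : ℝ)) with hM
  have hMpos : 0 < M := symm_pos hμ i₀
  have hd : (0 : ℝ) < d := by
    have : 0 < d := i₀.pos
    exact_mod_cast this
  refine ⟨M / Real.sqrt d, by positivity, fun v => ?_⟩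
  have h1 : ‖v‖ ≤ Real.sqrt d * (μ v / M) := by
    rw [EuclideanSpace.norm_eq]
    have h2 : Real.sqrt d * (μ v / M) = Real.sqrt (d * (μ v / M) ^ 2) := by
      rw [Real.sqrt_mul hd.le, Real.sqrt_sq (by positivity)]
    rw [h2]
    apply Real.sqrt_le_sqrt
    calc ∑ i, ‖v i‖ ^ 2 ≤ ∑ _i : Fin d, (μ v / M) ^ 2 := by
          refine Finset.sum_le_sum fun i _ => ?_
          have h3 := symm_proj hμ i v
          rw [symm_single hμ i i₀, ← hM] at h3
          have h4 : ‖v i‖ ≤ μ v / M := by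
            rw [le_div_iff₀ hMpos]; exact h3
          exact pow_le_pow_left₀ (norm_nonneg _) h4 2
      _ = d * (μ v / M) ^ 2 := by simp
  calc M / Real.sqrt d * ‖v‖ ≤ M / Real.sqrt d * (Real.sqrt d * (μ v / M)) := by gcongr
    _ = μ v := by field_simp

/-- For a lattice-symmetric norm in dimension at least two the body `gauge ≤ 1` is not a weighted
shape. -/
theorem not_shape (hd : 2 ≤ d) (hμ : IsSymmetricNorm μ) {α : ℝ} (hα : α < 1) {f : E d → ℝ}
    (hf : IsWeight α f) :
    weightedShape μ f ≠ {z | gauge' (⟨0, by omega⟩ : Fin d) z ≤ 1} := by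
  intro hK
  set i₀ : Fin d := ⟨0, by omega⟩ with hi₀
  set i₁ : Fin d := ⟨1, by omega⟩ with hi₁
  have hne : i₁ ≠ i₀ := by
    intro h
    rw [hi₀, hi₁, Fin.mk.injEq] at h
    exact absurd h (by norm_num)
  obtain ⟨c₀, hc₀, hlow⟩ := symm_lower hμ i₀
  refine corner hα hf i₀ i₁ hne (μ (EuclideanSpace.single i₀ (1 : ℝ))) c₀ (symm_pos hμ i₀) hc₀
    (symm_single hμ i₁ i₀) (fun v => symm_proj hμ i₀ v) hlow ?_
  intro z
  constructor
  · intro h
    have : z ∈ weightedShape μ f := h
    rw [hK] at this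
    exact this
  · intro h
    have : z ∈ {z | gauge' i₀ z ≤ 1} := h
    rw [← hK] at this
    exact this

/-! ### The Eden norm is symmetric -/

/-- Signed permutation on the lattice. -/
def gZ (σ : Equiv.Perm (Fin d)) (s : Fin d → ℤˣ) (x : Fin d → ℤ) : Fin d → ℤ :=
  fun i => (s i : ℤ) * x (σ i)

/-- Signed permutation on Euclidean space. -/
noncomputable def gE (σ : Equiv.Perm (Fin d)) (s : Fin d → ℤˣ) (z : E d) : E d :=
  WithLp.toLp 2 fun i => ((s i : ℤ) : ℝ) * z (σ i)

lemma toE_gZ (σ : Equiv.Perm (Fin d)) (s : Fin d → ℤˣ) (x : Fin d → ℤ) :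
    toE (gZ σ s x) = gE σ s (toE x) := by
  ext i
  simp [toE, gZ, gE]

lemma abs_unit_mul (u : ℤˣ) (a : ℤ) : |(u : ℤ) * a| = |a| := by
  rcases Int.units_eq_one_or u with h | h <;> simp [h]

lemma gZ_adj (σ : Equiv.Perm (Fin d)) (s : Fin d → ℤˣ) (x y : Fin d → ℤ)
    (h : (latticeGraph d).Adj x y) : (latticeGraph d).Adj (gZ σ s x) (gZ σ s y) := by
  change ∑ i, |gZ σ s x i - gZ σ s y i| = 1
  change ∑ i, |x i - y i| = 1 at h
  rw [← h, ← Equiv.sum_comp σ (fun i => |x i - y i|)]
  refine Finset.sum_congr rfl fun i _ => ?_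
  unfold gZ
  rw [← mul_sub, abs_unit_mul]

/-- The inverse signed permutation. -/
lemma gZ_inv (σ : Equiv.Perm (Fin d)) (s : Fin d → ℤˣ) (x : Fin d → ℤ) :
    gZ σ s (gZ σ.symm (fun i => s (σ.symm i)) x) = x := by
  funext i
  unfold gZ
  simp only [Equiv.symm_apply_apply]
  rw [← mul_assoc]
  rcases Int.units_eq_one_or (s i) with h | h <;> simp [h]

lemma gZ_inv' (σ : Equiv.Perm (Fin d)) (s : Fin d → ℤˣ) (x : Fin d → ℤ) :
    gZ σ.symm (fun i => s (σ.symm i)) (gZ σ s x) = x := by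
  funext i
  unfold gZ
  simp only [Equiv.apply_symm_apply]
  rw [← mul_assoc]
  rcases Int.units_eq_one_or (s (σ.symm i)) with h | h <;> simp [h]

/-- Signed permutation as an equivalence of the lattice. -/
def gEquiv (σ : Equiv.Perm (Fin d)) (s : Fin d → ℤˣ) : (Fin d → ℤ) ≃ (Fin d → ℤ) where
  toFun := gZ σ s
  invFun := gZ σ.symm (fun i => s (σ.symm i))
  left_inv := gZ_inv' σ s
  right_inv := gZ_inv σ s

/-- Signed permutation as a graph isomorphism of the lattice. -/
def gIso (σ : Equiv.Perm (Fin d)) (s : Fin d → ℤˣ) : latticeGraph d ≃g latticeGraph d where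
  toEquiv := gEquiv σ s
  map_rel_iff' := by
    intro x y
    constructor
    · intro h
      have := gZ_adj σ.symm (fun i => s (σ.symm i)) _ _ h
      change (latticeGraph d).Adj (gZ σ.symm _ (gZ σ s x)) (gZ σ.symm _ (gZ σ s y)) at this
      rwa [gZ_inv', gZ_inv'] at this
    · intro h
      exact gZ_adj σ s x y h

lemma passageTime_le (φ : latticeGraph d ≃g latticeGraph d) (τ : Sym2 (Fin d → ℤ) → ℝ)
    (x y : Fin d → ℤ) :
    passageTime τ (φ x) (φ y) ≤ passageTime (fun e => τ (Sym2.map φ e)) x y := by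
  unfold passageTime
  refine le_iInf fun p => ?_
  refine (iInf_le _ (p.map φ.toHom)).trans (le_of_eq ?_)
  rw [SimpleGraph.Walk.edges_map, List.map_map]
  rfl

lemma passageTime_eq (φ : latticeGraph d ≃g latticeGraph d) (τ : Sym2 (Fin d → ℤ) → ℝ)
    (x y : Fin d → ℤ) :
    passageTime (fun e => τ (Sym2.map φ e)) x y = passageTime τ (φ x) (φ y) := by
  apply le_antisymm _ (passageTime_le φ τ x y)
  have h := passageTime_le φ.symm (fun e => τ (Sym2.map φ e)) (φ x) (φ y)
  rw [RelIso.symm_apply_apply, RelIso.symm_apply_apply] at h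
  refine h.trans (le_of_eq ?_)
  congr 1
  funext e
  rw [Sym2.map_map]
  congr 1
  have : (φ : (Fin d → ℤ) → (Fin d → ℤ)) ∘ (φ.symm : (Fin d → ℤ) → (Fin d → ℤ)) = id := by
    funext z; simp
  rw [this, Sym2.map_id]
  rfl

/-- The induced bijection of unordered pairs. -/
def symEquiv (φ : latticeGraph d ≃g latticeGraph d) : Sym2 (Fin d → ℤ) ≃ Sym2 (Fin d → ℤ) where
  toFun := Sym2.map φ
  invFun := Sym2.map φ.symm
  left_inv e := by
    rw [Sym2.map_map]
    have : (φ.symm : (Fin d → ℤ) → (Fin d → ℤ)) ∘ (φ : (Fin d → ℤ) → (Fin d → ℤ)) = id := by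
      funext z; simp
    rw [this, Sym2.map_id]; rfl
  right_inv e := by
    rw [Sym2.map_map]
    have : (φ : (Fin d → ℤ) → (Fin d → ℤ)) ∘ (φ.symm : (Fin d → ℤ) → (Fin d → ℤ)) = id := by
      funext z; simp
    rw [this, Sym2.map_id]; rfl

lemma edgeLaw_map (φ : latticeGraph d ≃g latticeGraph d) :
    MeasurePreserving (fun (τ : Sym2 (Fin d → ℤ) → ℝ) (e : Sym2 (Fin d → ℤ)) =>
      τ (Sym2.map φ e)) (edgeLaw d) (edgeLaw d) := by
  constructor
  · exact measurable_pi_lambda _ fun e => measurable_pi_apply _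
  · have h := Measure.infinitePi_map_piCongrLeft (X := fun _ : Sym2 (Fin d → ℤ) => ℝ)
      (μ := fun _ => expMeasure 1) (symEquiv φ).symm
    unfold edgeLaw
    refine Eq.trans ?_ h
    congr 1
    funext τ e
    have h2 := MeasurableEquiv.piCongrLeft_apply_apply (symEquiv φ).symm
      (β := fun _ : Sym2 (Fin d → ℤ) => ℝ) τ (symEquiv φ e)
    rw [Equiv.symm_apply_apply] at h2
    rw [h2]
    rfl

end Pool.Agent.MP_41ff67_pr
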